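import Pool.Agent.H602PD.MinImp

/-!
# Properties of a minimal counterexample
-/

set_option autoImplicit false

namespace Pool.Agent.H602PD

variable {V : Type}


theorem aux91_wt_union [Fintype V] (w : V → ℕ) {K L : Set V} (h : Disjoint K L) :
    wt w (K ∪ L) = wt w K + wt w L := by
  unfold wt
  rw [← Finset.sum_add_distrib]
  apply Finset.sum_congr rfl
  intro v _
  rw [Set.indicator_union_of_disjoint h]

theorem aux91_wt_empty [Fintype V] (w : V → ℕ) : wt w (∅ : Set V) = 0 := by
  simp [wt]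

theorem aux91_wt_singleton [Fintype V] (w : V → ℕ) (v : V) : wt w {v} = w v := by
  classical
  simp [wt, Set.indicator_apply, Set.mem_singleton_iff]

theorem aux91_wt_congr [Fintype V] {w w' : V → ℕ} {K : Set V} (h : ∀ v ∈ K, w v = w' v) :
    wt w K = wt w' K := by
  unfold wt
  rw [Set.indicator_congr h]

theorem aux91_exists_heavy [Fintype V] (G : SimpleGraph V) (w : V → ℕ) (S : Set V) :
    ∃ K₀, Heavy G w S K₀ := by
  obtain ⟨K, ⟨h1, h2⟩, h3⟩ := Set.exists_max_image {K : Set V | K ⊆ S ∧ G.IsClique K} (wt w)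
    (Set.toFinite _) ⟨∅, Set.empty_subset _, by simp⟩
  exact ⟨K, h1, h2, fun K' h4 h5 => h3 K' ⟨h4, h5⟩⟩

theorem aux91_clique_union {G : SimpleGraph V} {K L : Set V} (hK : G.IsClique K)
    (hL : G.IsClique L) (h : ∀ a ∈ K, ∀ b ∈ L, a ≠ b → G.Adj a b) : G.IsClique (K ∪ L) := by
  rw [SimpleGraph.isClique_iff, Set.pairwise_union]
  exact ⟨hK, hL, fun a ha b hb hab => ⟨h a ha b hb hab, (h a ha b hb hab).symm⟩⟩

theorem aux91_clique_mono {G : SimpleGraph V} {K L : Set V} (hK : G.IsClique K) (h : L ⊆ K) :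
    G.IsClique L := Set.Pairwise.mono h hK

/-- a clique of maximum weight in a nonempty vertex set is nonempty -/
theorem aux91_heavy_ne [Fintype V] {G : SimpleGraph V} {w : V → ℕ} (hw : ∀ v, 0 < w v) {S K : Set V}
    (hS : S.Nonempty) (hK : Heavy G w S K) : K.Nonempty := by
  obtain ⟨v, hv⟩ := hS
  by_contra hne
  rw [Set.not_nonempty_iff_eq_empty] at hne
  have h1 := hK.2.2 {v} (by simpa using hv) (by simp)
  rw [hne, aux91_wt_empty, aux91_wt_singleton] at h1
  have := hw v
  omega

/-- transport of perfectness along an isomorphism of induced subgraphs -/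
theorem aux91_transport {G : SimpleGraph V} {A B : Set V} (f : V → V)
    (hf : Set.MapsTo f B A) (hi : Set.InjOn f B)
    (hadj : ∀ u ∈ B, ∀ v ∈ B, G.Adj u v ↔ G.Adj (f u) (f v)) (hA : Perf G A) : Perf G B := by
  intro T hT k hk
  have hcb : CB G (f '' T) k := by
    intro K hK hcl
    set K' : Set V := T ∩ f ⁻¹' K with hK'
    have h1 : f '' K' = K := by
      ext y
      constructor
      · rintro ⟨x, ⟨_, hx⟩, rfl⟩
        exact hx
      · intro hy
        obtain ⟨x, hx, rfl⟩ := hK hy
        exact ⟨x, ⟨hx, hy⟩, rfl⟩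
    have h2 : G.IsClique K' := by
      intro u hu v hv huv
      have hfu : f u ≠ f v := fun h => huv (hi (hT hu.1) (hT hv.1) h)
      exact (hadj u (hT hu.1) v (hT hv.1)).2 (hcl hu.2 hv.2 hfu)
    have h3 := hk K' Set.inter_subset_left h2
    rw [← h1, Set.ncard_image_of_injOn (hi.mono (fun u hu => hT hu.1))]
    exact h3
  obtain ⟨c, hc1, hc2⟩ := hA (f '' T) (by
    rintro _ ⟨x, hx, rfl⟩
    exact hf (hT hx)) k hcb
  refine ⟨fun v => c (f v), fun v hv => hc1 _ ⟨v, hv, rfl⟩, ?_⟩
  intro u hu v hv huv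
  exact hc2 _ ⟨u, hu, rfl⟩ _ ⟨v, hv, rfl⟩ ((hadj u (hT hu) v (hT hv)).1 huv)

theorem aux91_maxcl [Fintype V] {G : SimpleGraph V} {w : V → ℕ} (hw : ∀ v, 0 < w v) {K : Set V}
    (hK : Heavy G w Set.univ K) : MaxCl G K := by
  refine ⟨hK.2.1, ?_⟩
  intro x hx
  by_contra hxK
  have h1 : G.IsClique (K ∪ {x}) := by
    apply aux91_clique_union hK.2.1 (by simp)
    intro a ha b hb hab
    rw [Set.mem_singleton_iff] at hb
    subst hb
    exact (hx a ha (Ne.symm hab)).symm
  have h2 := hK.2.2 _ (Set.subset_univ _) h1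
  rw [aux91_wt_union w (by simpa using hxK), aux91_wt_singleton] at h2
  have := hw x
  omega

theorem aux91_conn [Fintype V] {G : SimpleGraph V} {w : V → ℕ} (h : MinCE G w) (P : Set V)
    (hP : P.Nonempty) (hPu : P ≠ Set.univ) : ∃ p ∈ P, ∃ q, q ∉ P ∧ G.Adj p q := by
  by_contra hcon
  push Not at hcon
  have hPc : (Pᶜ : Set V).Nonempty := Set.nonempty_compl.2 hPu
  have hPcu : (Pᶜ : Set V) ≠ Set.univ := by
    intro h1
    obtain ⟨p, hp⟩ := hP
    have : p ∈ (Pᶜ : Set V) := by rw [h1]; trivial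
    exact this hp
  obtain ⟨A₁, h11, h12, h13⟩ := h.her P hP hPu w h.pos
  obtain ⟨A₂, h21, h22, h23⟩ := h.her Pᶜ hPc hPcu w h.pos
  apply h.bad
  refine ⟨A₁ ∪ A₂, Set.subset_univ _, ?_, ?_⟩
  · apply perf_glue h12 h22
    · have : A₁ ∩ A₂ = ∅ := by
        ext z
        simp only [Set.mem_inter_iff, Set.mem_empty_iff_false, iff_false]
        rintro ⟨hz1, hz2⟩
        exact h21 hz2 (h11 hz1)
      rw [this]
      simp
    · intro a ha _ b hb _
      exact hcon a (h11 ha) b (h21 hb)
  · intro K hK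
    obtain ⟨p₀, hp₀⟩ := hP
    have hKne := aux91_heavy_ne h.pos (⟨p₀, trivial⟩ : (Set.univ : Set V).Nonempty) hK
    by_cases hKP : (K ∩ P).Nonempty
    · obtain ⟨y, hyK, hyP⟩ := hKP
      have hsub : K ⊆ P := by
        intro z hz
        by_contra hzP
        have hne : y ≠ z := by
          rintro rfl
          exact hzP hyP
        exact hcon y hyP z hzP (hK.2.1 hyK hz hne)
      obtain ⟨z, hz1, hz2⟩ := h13 K ⟨hsub, hK.2.1, fun K' h1 h2 => hK.2.2 K' (Set.subset_univ _) h2⟩
      exact ⟨z, hz1, Or.inl hz2⟩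
    · have hsub : K ⊆ Pᶜ := by
        intro z hz hzP
        exact hKP ⟨z, hz, hzP⟩
      obtain ⟨z, hz1, hz2⟩ := h23 K ⟨hsub, hK.2.1, fun K' h1 h2 => hK.2.2 K' (Set.subset_univ _) h2⟩
      exact ⟨z, hz1, Or.inr hz2⟩

theorem aux91_cut [Fintype V] {G : SimpleGraph V} {w : V → ℕ} (h : MinCE G w) (H A : Set V)
    (hH : H.Nonempty) (_hA : A ⊆ H)
    (ha : ∀ B : Set V, (∀ b ∈ B, b ∉ H) → Perf G B → Perf G (A ∪ B)) :
    ¬ ∀ K : Set V, MaxCl G K → (K ∩ H).Nonempty → (K ∩ A).Nonempty := by
  intro hb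
  apply h.bad
  have hB : ∃ B : Set V, B ⊆ Hᶜ ∧ Perf G B ∧ ∀ K : Set V, K.Nonempty → K ⊆ Hᶜ →
      Heavy G w Set.univ K → (K ∩ B).Nonempty := by
    by_cases hHc : (Hᶜ : Set V).Nonempty
    · have hHu : (Hᶜ : Set V) ≠ Set.univ := by
        intro h1
        obtain ⟨p, hp⟩ := hH
        have : p ∈ (Hᶜ : Set V) := by rw [h1]; trivial
        exact this hp
      obtain ⟨B, h1, h2, h3⟩ := h.her Hᶜ hHc hHu w h.pos
      exact ⟨B, h1, h2, fun K _ hK1 hK2 =>
        h3 K ⟨hK1, hK2.2.1, fun K' _ h5 => hK2.2.2 K' (Set.subset_univ _) h5⟩⟩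
    · refine ⟨∅, Set.empty_subset _, perf_clique (by simp), ?_⟩
      intro K hKne hK1 _
      obtain ⟨z, hz⟩ := hKne
      exact absurd ⟨z, hK1 hz⟩ hHc
  obtain ⟨B, hB1, hB2, hB3⟩ := hB
  refine ⟨A ∪ B, Set.subset_univ _, ha B (fun b hb => hB1 hb) hB2, ?_⟩
  intro K hK
  obtain ⟨p₀, hp₀⟩ := hH
  have hKne := aux91_heavy_ne h.pos (⟨p₀, trivial⟩ : (Set.univ : Set V).Nonempty) hK
  by_cases hKH : (K ∩ H).Nonempty
  · obtain ⟨z, hz1, hz2⟩ := hb K (aux91_maxcl h.pos hK) hKH
    exact ⟨z, hz1, Or.inl hz2⟩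
  · have hsub : K ⊆ Hᶜ := by
      intro z hz hzP
      exact hKH ⟨z, hz, hzP⟩
    obtain ⟨z, hz1, hz2⟩ := hB3 K hKne hsub hK
    exact ⟨z, hz1, Or.inr hz2⟩

theorem aux91_prime [Fintype V] {G : SimpleGraph V} {w : V → ℕ} (h : MinCE G w) (X : Set V)
    (hX : ∃ a ∈ X, ∃ b ∈ X, a ≠ b) (hXu : X ≠ Set.univ) : ¬ Mod G Set.univ X := by
  classical
  intro hmod
  obtain ⟨x, hx, x₁, hx₁, hxx₁⟩ := hX
  obtain ⟨K₀, hK₀⟩ := aux91_exists_heavy G w X
  set m := wt w K₀ with hm
  have hmpos : 0 < m := by
    have h1 := hK₀.2.2 {x} (by simpa using hx) (by simp)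
    rw [aux91_wt_singleton] at h1
    exact lt_of_lt_of_le (h.pos x) h1
  set w' : V → ℕ := Function.update w x m with hw'
  have hw'pos : ∀ v, 0 < w' v := by
    intro v
    by_cases hv : v = x
    · subst hv; simpa [hw'] using hmpos
    · simpa [hw', hv] using h.pos v
  have hw'x : w' x = m := by simp [hw']
  have hw'ne : ∀ v, v ≠ x → w' v = w v := by
    intro v hv
    simp [hw', hv]
  set S' : Set V := insert x Xᶜ with hS'
  have hS'u : S' ≠ Set.univ := by
    intro h1
    have : x₁ ∈ S' := by rw [h1]; trivial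
    rcases this with h2 | h2
    · exact hxx₁ h2.symm
    · exact h2 hx₁
  obtain ⟨A', hA'1, hA'2, hA'3⟩ := h.her S' ⟨x, Set.mem_insert _ _⟩ hS'u w' hw'pos
  obtain ⟨A'', hA''1, hA''2, hA''3⟩ := h.her X ⟨x, hx⟩ hXu w h.pos
  -- complete vertices
  have hcomp : ∀ z, z ∉ X → ∀ y ∈ X, G.Adj z y → ∀ y' ∈ X, G.Adj z y' := by
    intro z hz y hy hzy y' hy'
    rcases hmod z trivial hz with h1 | h1
    · exact h1 y' hy'
    · exact absurd hzy (h1 y hy)
  -- the key inequality
  have hkey : ∀ K : Set V, Heavy G w Set.univ K → ∀ K' : Set V, K' ⊆ S' → G.IsClique K' →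
      wt w' K' ≤ wt w K := by
    intro K hK K' hK'1 hK'2
    by_cases hxK' : x ∈ K'
    · have hd : Disjoint (K' \ {x}) {x} := by simp
      have h1 : wt w' K' = wt w' (K' \ {x}) + m := by
        have h2 := aux91_wt_union w' hd
        rw [aux91_wt_singleton, hw'x] at h2
        rw [← h2]
        congr 1
        ext z
        by_cases hz : z = x
        · simp [hz, hxK']
        · simp [hz]
      have h2 : wt w' (K' \ {x}) = wt w (K' \ {x}) :=
        aux91_wt_congr (fun v hv => hw'ne v (by simpa using hv.2))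
      have hnX : ∀ z ∈ K' \ {x}, z ∉ X := by
        rintro z ⟨hz1, hz2⟩
        rcases hK'1 hz1 with h3 | h3
        · exact absurd h3 hz2
        · exact h3
      have hd2 : Disjoint (K' \ {x}) K₀ := by
        rw [Set.disjoint_left]
        intro z hz hz'
        exact hnX z hz (hK₀.1 hz')
      have h3 : G.IsClique ((K' \ {x}) ∪ K₀) := by
        apply aux91_clique_union (aux91_clique_mono hK'2 Set.sdiff_subset) hK₀.2.1
        intro a ha b hb _
        have hax : a ≠ x := by simpa using ha.2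
        exact hcomp a (hnX a ha) x hx (hK'2 ha.1 hxK' hax) b (hK₀.1 hb)
      have h4 := hK.2.2 _ (Set.subset_univ _) h3
      rw [aux91_wt_union w hd2] at h4
      rw [h1, h2]
      exact h4
    · have h1 : wt w' K' = wt w K' := by
        apply aux91_wt_congr
        intro v hv
        apply hw'ne
        rintro rfl
        exact hxK' hv
      rw [h1]
      exact hK.2.2 K' (Set.subset_univ _) hK'2
  -- the perfect set
  have hA : ∃ A : Set V, Perf G A ∧ A' \ {x} ⊆ A ∧ (x ∈ A' → A'' ⊆ A) := by
    by_cases hxA' : x ∈ A'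
    · refine ⟨(A' \ {x}) ∪ A'', ?_, Set.subset_union_left, fun _ => Set.subset_union_right⟩
      by_cases hne : A''.Nonempty
      · obtain ⟨x', hx'⟩ := hne
        have hnX : ∀ z ∈ A' \ {x}, z ∉ X := by
          rintro z ⟨hz1, hz2⟩
          rcases hA'1 hz1 with h3 | h3
          · exact absurd h3 hz2
          · exact h3
        have hsub2 : A'' ⊆ (A' \ {x}) ∪ A'' := Set.subset_union_right
        have hmod2 : Mod G ((A' \ {x}) ∪ A'') A'' := by
          intro z hz hzA
          have hzX : z ∉ X := by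
            rcases hz with h1 | h1
            · exact hnX z h1
            · exact absurd h1 hzA
          rcases hmod z trivial hzX with h1 | h1
          · exact Or.inl (fun y hy => h1 y (hA''1 hy))
          · exact Or.inr (fun y hy => h1 y (hA''1 hy))
        refine perf_subst hsub2 hmod2 hx' ?_ hA''2
        have heq : insert x' (((A' \ {x}) ∪ A'') \ A'') ⊆ insert x' (A' \ {x}) := by
          apply Set.insert_subset_insert
          rintro z ⟨h1 | h1, h2⟩
          · exact h1
          · exact absurd h1 h2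
        refine Perf.mono ?_ heq
        refine aux91_transport (A := A') (fun z => if z = x' then x else z) ?_ ?_ ?_ hA'2
        · intro z hz
          by_cases hzx : z = x'
          · simpa [hzx] using hxA'
          · simp only [hzx, if_false]
            rcases hz with h1 | h1
            · exact absurd h1 hzx
            · exact h1.1
        · intro u hu v hv huv
          simp only at huv
          have key : ∀ z ∈ insert x' (A' \ {x}), z ≠ x' → z ≠ x := by
            rintro z (h1 | h1) h2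
            · exact absurd h1 h2
            · simpa using h1.2
          by_cases hux : u = x' <;> by_cases hvx : v = x'
          · rw [hux, hvx]
          · rw [if_pos hux, if_neg hvx] at huv
            exact absurd huv.symm (key v hv hvx)
          · rw [if_neg hux, if_pos hvx] at huv
            exact absurd huv (key u hu hux)
          · rw [if_neg hux, if_neg hvx] at huv
            exact huv
        · have key : ∀ z ∈ insert x' (A' \ {x}), z ≠ x' → (G.Adj z x' ↔ G.Adj z x) := by
            rintro z (h1 | h1) h2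
            · exact absurd h1 h2
            · have hzX := hnX z h1
              exact ⟨fun h3 => hcomp z hzX x' (hA''1 hx') h3 x hx,
                fun h3 => hcomp z hzX x hx h3 x' (hA''1 hx')⟩
          intro u hu v hv
          by_cases hux : u = x' <;> by_cases hvx : v = x'
          · rw [hux, hvx]
            simp
          · rw [if_pos hux, if_neg hvx, hux, G.adj_comm x' v, G.adj_comm x v]
            exact key v hv hvx
          · rw [if_neg hux, if_pos hvx, hvx]
            exact key u hu hux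
          · rw [if_neg hux, if_neg hvx]
      · rw [Set.not_nonempty_iff_eq_empty] at hne
        rw [hne, Set.union_empty]
        exact hA'2.mono Set.sdiff_subset
    · exact ⟨A', hA'2, Set.sdiff_subset, fun h1 => absurd h1 hxA'⟩
  obtain ⟨A, hA1, hA2, hA3⟩ := hA
  apply h.bad
  refine ⟨A, Set.subset_univ _, hA1, ?_⟩
  intro K hK
  by_cases hKX : (K ∩ X).Nonempty
  · obtain ⟨y, hyK, hyX⟩ := hKX
    have hadj : ∀ z ∈ K, z ∉ X → ∀ y' ∈ X, G.Adj z y' := by
      intro z hz hzX y' hy'
      have hne : z ≠ y := by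
        rintro rfl
        exact hzX hyX
      exact hcomp z hzX y hyX (hK.2.1 hz hyK hne) y' hy'
    have hKsplit : wt w K = wt w (K \ X) + wt w (K ∩ X) := by
      rw [← aux91_wt_union w (Set.disjoint_sdiff_inter), Set.sdiff_union_inter]
    have hheavy1 : Heavy G w X (K ∩ X) := by
      refine ⟨Set.inter_subset_right, aux91_clique_mono hK.2.1 Set.inter_subset_left, ?_⟩
      intro K' hK'1 hK'2
      have h1 : G.IsClique ((K \ X) ∪ K') := by
        apply aux91_clique_union (aux91_clique_mono hK.2.1 Set.sdiff_subset) hK'2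
        intro a ha b hb _
        exact hadj a ha.1 ha.2 b (hK'1 hb)
      have h2 := hK.2.2 _ (Set.subset_univ _) h1
      have hd : Disjoint (K \ X) K' := by
        rw [Set.disjoint_left]
        intro z hz hz'
        exact hz.2 (hK'1 hz')
      rw [aux91_wt_union w hd, hKsplit] at h2
      omega
    have hwm : wt w (K ∩ X) = m :=
      le_antisymm (hK₀.2.2 _ hheavy1.1 hheavy1.2.1) (hheavy1.2.2 _ hK₀.1 hK₀.2.1)
    have hheavy2 : Heavy G w' S' ((K \ X) ∪ {x}) := by
      refine ⟨?_, ?_, ?_⟩
      · rintro z (hz | hz)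
        · exact Or.inr hz.2
        · exact Or.inl hz
      · apply aux91_clique_union (aux91_clique_mono hK.2.1 Set.sdiff_subset) (by simp)
        intro a ha b hb _
        rw [Set.mem_singleton_iff] at hb
        subst hb
        exact hadj a ha.1 ha.2 _ hx
      · intro K' hK'1 hK'2
        have hd : Disjoint (K \ X) {x} := by
          rw [Set.disjoint_left]
          intro z hz hz'
          rw [Set.mem_singleton_iff] at hz'
          subst hz'
          exact hz.2 hx
        rw [aux91_wt_union w' hd, aux91_wt_singleton, hw'x]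
        have h1 : wt w' (K \ X) = wt w (K \ X) := by
          apply aux91_wt_congr
          intro v hv
          apply hw'ne
          rintro rfl
          exact hv.2 hx
        rw [h1, ← hwm, ← hKsplit]
        exact hkey K hK K' hK'1 hK'2
    obtain ⟨z, hz1, hz2⟩ := hA'3 _ hheavy2
    by_cases hzx : z = x
    · subst hzx
      obtain ⟨y', hy'1, hy'2⟩ := hA''3 _ hheavy1
      exact ⟨y', hy'1.1, hA3 hz2 hy'2⟩
    · rcases hz1 with hz1 | hz1
      · exact ⟨z, hz1.1, hA2 ⟨hz2, by simpa using hzx⟩⟩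
      · exact absurd hz1 hzx
  · have hKX' : ∀ z ∈ K, z ∉ X := fun z hz hzX => hKX ⟨z, hz, hzX⟩
    have hheavy : Heavy G w' S' K := by
      refine ⟨fun z hz => Or.inr (hKX' z hz), hK.2.1, ?_⟩
      intro K' hK'1 hK'2
      have h1 : wt w' K = wt w K := by
        apply aux91_wt_congr
        intro v hv
        apply hw'ne
        rintro rfl
        exact hKX' _ hv hx
      rw [h1]
      exact hkey K hK K' hK'1 hK'2
    obtain ⟨z, hz1, hz2⟩ := hA'3 _ hheavy
    have hzx : z ≠ x := by
      rintro rfl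
      exact hKX' _ hz1 hx
    exact ⟨z, hz1, hA2 ⟨hz2, by simpa using hzx⟩⟩

theorem MinCE.core [Fintype V] {G : SimpleGraph V} {w : V → ℕ} (h : MinCE G w) : Core G where
  conn := fun P hP hPu => aux91_conn h P hP hPu
  prime := fun X hX hXu => aux91_prime h X hX hXu
  cut := fun H A hH hA ha => aux91_cut h H A hH hA ha

theorem Core.not_perf_M [Fintype V] {G : SimpleGraph V} (hc : Core G) (v : V) : ¬ Perf G (M G v) := by
  intro hp
  apply hc.cut Set.univ (insert v (M G v)) ⟨v, trivial⟩ (Set.subset_univ _)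
  · intro B hB _
    have hBe : B = ∅ := by
      ext z
      simp only [Set.mem_empty_iff_false, iff_false]
      intro hz
      exact hB z hz trivial
    rw [hBe, Set.union_empty]
    apply perf_insert hp
    intro x hx y _ hvx _ _
    exact absurd hvx hx.2
  · intro K hK _
    by_contra hcon
    have h1 : v ∈ K := by
      apply hK.2
      intro y hy hvy
      by_contra hnadj
      exact hcon ⟨y, hy, Or.inr ⟨Ne.symm hvy, hnadj⟩⟩
    exact hcon ⟨v, h1, Or.inl rfl⟩

end Pool.Agent.H602PD
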