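import Mathlib

/-!
# Perfect divisibility of fork-free graphs: definitions

Vertex sets of a fixed finite graph `G` are identified with the subgraphs they induce.
-/

set_option autoImplicit false

namespace Pool.Agent.H602PD

variable {V : Type}

/-- Every clique inside `T` has at most `k` vertices. -/
def CB (G : SimpleGraph V) (T : Set V) (k : ℕ) : Prop :=
  ∀ K : Set V, K ⊆ T → G.IsClique K → K.ncard ≤ k

/-- The subgraph induced by `T` can be coloured with `k` colours. -/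
def Col (G : SimpleGraph V) (T : Set V) (k : ℕ) : Prop :=
  ∃ f : V → ℕ, (∀ v ∈ T, f v < k) ∧ ∀ u ∈ T, ∀ v ∈ T, G.Adj u v → f u ≠ f v

/-- The subgraph induced by `A` is perfect. -/
def Perf (G : SimpleGraph V) (A : Set V) : Prop :=
  ∀ T : Set V, T ⊆ A → ∀ k : ℕ, CB G T k → Col G T k

/-- `D` induces a minimal imperfect graph. -/
def MI (G : SimpleGraph V) (D : Set V) : Prop :=
  ¬ Perf G D ∧ ∀ D' : Set V, D' ⊂ D → Perf G D'

/-- `X` is a module of (the subgraph induced by) `A`: every vertex of `A` outside `X` is complete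
or anticomplete to `X`. -/
def Mod (G : SimpleGraph V) (A X : Set V) : Prop :=
  ∀ z ∈ A, z ∉ X → (∀ x ∈ X, G.Adj z x) ∨ (∀ x ∈ X, ¬ G.Adj z x)

/-- No induced fork `a - b - c - d, e`. -/
def ForkFree (G : SimpleGraph V) : Prop :=
  ∀ a b c d e : V, G.Adj a b → G.Adj b c → G.Adj c d → G.Adj c e →
    ¬ G.Adj a c → ¬ G.Adj a d → ¬ G.Adj a e → ¬ G.Adj b d → ¬ G.Adj b e → ¬ G.Adj d e →
    d ≠ e → False

/-- No induced claw with centre `c`. -/
def ClawFree (G : SimpleGraph V) : Prop :=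
  ∀ c x y z : V, G.Adj c x → G.Adj c y → G.Adj c z →
    ¬ G.Adj x y → ¬ G.Adj x z → ¬ G.Adj y z → x ≠ y → x ≠ z → y ≠ z → False

/-- `{c; x, y, z}` is an induced claw with centre `c`. -/
def Claw (G : SimpleGraph V) (c x y z : V) : Prop :=
  G.Adj c x ∧ G.Adj c y ∧ G.Adj c z ∧ ¬ G.Adj x y ∧ ¬ G.Adj x z ∧ ¬ G.Adj y z ∧
    x ≠ y ∧ x ≠ z ∧ y ≠ z

/-- The non-neighbours of `v`. -/
def M (G : SimpleGraph V) (v : V) : Set V := {x | x ≠ v ∧ ¬ G.Adj v x}

/-- `K` is an inclusion-maximal clique. -/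
def MaxCl (G : SimpleGraph V) (K : Set V) : Prop :=
  G.IsClique K ∧ ∀ x, (∀ y ∈ K, x ≠ y → G.Adj x y) → x ∈ K

/-- No vertex has an induced cycle of length five in its neighbourhood. -/
def NoWheel (G : SimpleGraph V) : Prop :=
  ∀ (v : V) (f : ZMod 5 → V), (∀ i, G.Adj v (f i)) → (∀ i, G.Adj (f i) (f (i + 1))) →
    (∀ i, ¬ G.Adj (f i) (f (i + 2))) → False

/-- The structural properties of a minimal counterexample: it is connected, prime, and has no
removable part in the sense of the cut principle. -/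
structure Core (G : SimpleGraph V) : Prop where
  conn : ∀ P : Set V, P.Nonempty → P ≠ Set.univ → ∃ p ∈ P, ∃ q, q ∉ P ∧ G.Adj p q
  prime : ∀ X : Set V, (∃ a ∈ X, ∃ b ∈ X, a ≠ b) → X ≠ Set.univ → ¬ Mod G Set.univ X
  cut : ∀ H A : Set V, H.Nonempty → A ⊆ H →
    (∀ B : Set V, (∀ b ∈ B, b ∉ H) → Perf G B → Perf G (A ∪ B)) →
    ¬ ∀ K : Set V, MaxCl G K → (K ∩ H).Nonempty → (K ∩ A).Nonempty

/-- Total weight of a vertex set. -/
noncomputable def wt [Fintype V] (w : V → ℕ) (K : Set V) : ℕ := ∑ v, Set.indicator K w v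

/-- `K` is a clique of maximum weight of the subgraph induced by `S`. -/
def Heavy [Fintype V] (G : SimpleGraph V) (w : V → ℕ) (S K : Set V) : Prop :=
  K ⊆ S ∧ G.IsClique K ∧ ∀ K' : Set V, K' ⊆ S → G.IsClique K' → wt w K' ≤ wt w K

/-- The subgraph induced by `S` has a perfect set meeting all its cliques of maximum weight. -/
def GoodSet [Fintype V] (G : SimpleGraph V) (w : V → ℕ) (S : Set V) : Prop :=
  ∃ A : Set V, A ⊆ S ∧ Perf G A ∧ ∀ K : Set V, Heavy G w S K → (K ∩ A).Nonempty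

/-- A counterexample all of whose proper induced subgraphs are fine with arbitrary weights. -/
structure MinCE [Fintype V] (G : SimpleGraph V) (w : V → ℕ) : Prop where
  pos : ∀ v, 0 < w v
  her : ∀ S : Set V, S.Nonempty → S ≠ Set.univ → ∀ w' : V → ℕ, (∀ v, 0 < w' v) → GoodSet G w' S
  bad : ¬ GoodSet G w Set.univ

end Pool.Agent.H602PD
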