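import Pool.Agent.H602PD.ForkNbrs

/-!
# Fork-free graphs: leaves of claws
-/

set_option autoImplicit false

namespace Pool.Agent.H602PD

variable {V : Type}


/-- `y` has a neighbour among `v, a, b, c`. -/
def adC (G : SimpleGraph V) (v a b c y : V) : Prop := G.Adj y v ∨ G.Adj y a ∨ G.Adj y b ∨ G.Adj y c

theorem lemmaP {G : SimpleGraph V} (hff : ForkFree G) {v a b c : V} (hcl : Claw G v a b c)
    {p1 p0 q : V} (h1 : adC G v a b c p1) (h10 : G.Adj p1 p0) (h0q : G.Adj p0 q)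
    (h1q : ¬ G.Adj p1 q) (h0 : ¬ adC G v a b c p0) (hq : ¬ adC G v a b c q) : False := by
  obtain ⟨va, vb, vc, ab, ac, bc, nab, nac, nbc⟩ := hcl
  unfold adC at h1 h0 hq
  push Not at h0 hq
  obtain ⟨h0v, h0a, h0b, h0c⟩ := h0
  obtain ⟨hqv, hqa, hqb, hqc⟩ := hq
  have two : ∀ x y : V, G.Adj p1 x → G.Adj p1 y → ¬ G.Adj p0 x → ¬ G.Adj p0 y → ¬ G.Adj q x →
      ¬ G.Adj q y → ¬ G.Adj x y → x ≠ y → False := by
    intro x y hx hy h0x h0y hqx hqy hxy hne
    exact hff q p0 p1 x y h0q.symm h10.symm hx hy (fun h => h1q h.symm) hqx hqy h0x h0y hxy hne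
  have one : ∀ x y z : V, G.Adj v x → G.Adj v y → G.Adj v z → ¬ G.Adj x y → ¬ G.Adj x z →
      ¬ G.Adj y z → y ≠ z → G.Adj p1 x → ¬ G.Adj p1 y → ¬ G.Adj p1 z → ¬ G.Adj p0 y →
      ¬ G.Adj p0 z → False := by
    intro x y z hx hy hz hxy hxz hyz hne h1x h1y h1z h0y h0z
    by_cases h1v : G.Adj p1 v
    · exact hff p0 p1 v y z h10.symm h1v hy hz h0v h0y h0z h1y h1z hyz hne
    · exact hff p1 x v y z h1x hx.symm hy hz h1v h1y h1z hxy hxz hyz hne
  by_cases ha : G.Adj p1 a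
  · by_cases hb : G.Adj p1 b
    · exact two a b ha hb h0a h0b hqa hqb ab nab
    · by_cases hc : G.Adj p1 c
      · exact two a c ha hc h0a h0c hqa hqc ac nac
      · exact one a b c va vb vc ab ac bc nbc ha hb hc h0b h0c
  · by_cases hb : G.Adj p1 b
    · by_cases hc : G.Adj p1 c
      · exact two b c hb hc h0b h0c hqb hqc bc nbc
      · exact one b a c vb va vc (fun h => ab h.symm) bc ac nac hb ha hc h0a h0c
    · by_cases hc : G.Adj p1 c
      · exact one c a b vc va vb (fun h => ac h.symm) (fun h => bc h.symm) ab nab hc ha hb h0a h0b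
      · have h1v : G.Adj p1 v := by tauto
        exact hff p0 p1 v a b h10.symm h1v va vb h0v h0a h0b ha hb ab nab

theorem claw_MI_complete [Fintype V] {G : SimpleGraph V} (hff : ForkFree G) (hc : Core G)
    {D : Set V} (hD : MI G D) {v a b c : V} (hcl : Claw G v a b c) (hDv : D ⊆ M G v) :
    ∀ d ∈ D, G.Adj a d ∧ G.Adj b d ∧ G.Adj c d := by
  rcases claw_MI hff hD hcl hDv with h | hanti
  · exact h
  exfalso
  have hcl' := hcl
  obtain ⟨va, vb, vc, ab, ac, bc, nab, nac, nbc⟩ := hcl'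
  -- the vertices anticomplete to `D`
  let inZ : V → Prop := fun z => z ∉ D ∧ ∀ d ∈ D, ¬ G.Adj z d
  let inC : V → Prop := fun z => z = v ∨ z = a ∨ z = b ∨ z = c
  have hDadC : ∀ d ∈ D, ¬ adC G v a b c d := by
    intro d hd
    unfold adC
    have h1 := hanti d hd
    have h2 := (hDv hd).2
    intro h
    rcases h with h | h | h | h
    · exact h2 h.symm
    · exact h1.1 h.symm
    · exact h1.2.1 h.symm
    · exact h1.2.2 h.symm
  have hCZ : ∀ z, inC z → inZ z := by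
    intro z hz
    rcases hz with rfl | rfl | rfl | rfl
    · exact ⟨fun h => (hDv h).1 rfl, fun d hd => (hDv hd).2⟩
    · exact ⟨fun h => (hDv h).2 va, fun d hd => (hanti d hd).1⟩
    · exact ⟨fun h => (hDv h).2 vb, fun d hd => (hanti d hd).2.1⟩
    · exact ⟨fun h => (hDv h).2 vc, fun d hd => (hanti d hd).2.2⟩
  have hadj : ∀ z y, inC z → G.Adj y z → adC G v a b c y := by
    intro z y hz hy
    rcases hz with rfl | rfl | rfl | rfl
    · exact Or.inl hy
    · exact Or.inr (Or.inl hy)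
    · exact Or.inr (Or.inr (Or.inl hy))
    · exact Or.inr (Or.inr (Or.inr hy))
  let S : Set V := {z | inZ z ∧ (inC z ∨ adC G v a b c z ∨
    ∃ z1, inZ z1 ∧ adC G v a b c z1 ∧ G.Adj z z1)}
  have hclosed : ∀ z ∈ S, ∀ q, inZ q → G.Adj z q → q ∈ S := by
    rintro z ⟨hz, hz'⟩ q hq hzq
    refine ⟨hq, ?_⟩
    by_contra hcon
    push Not at hcon
    obtain ⟨hc1, hc2, hc3⟩ := hcon
    have hzC : ¬ inC z := fun h => hc2 (hadj z q h hzq.symm)
    have hzA : ¬ adC G v a b c z := fun h => hc3 z hz h hzq.symm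
    rcases hz' with h | h | ⟨z1, hz1, hz1A, hzz1⟩
    · exact hzC h
    · exact hzA h
    · exact lemmaP hff hcl hz1A hzz1.symm hzq (fun h => hc3 z1 hz1 hz1A h.symm) hzA hc2
  obtain ⟨z, hzS, x, hxS, hzx, d0, hd0, hxd0⟩ := hs hff hc hD (Z := S)
    ⟨v, hCZ v (Or.inl rfl), Or.inl (Or.inl rfl)⟩ (fun z hz => hz.1)
  have hxZ : ¬ inZ x := fun h => hxS (hclosed z hzS x h hzx)
  have hxD : x ∉ D := fun h => hzS.1.2 x h hzx
  obtain ⟨d1, hd1, hxd1⟩ : ∃ d ∈ D, G.Adj x d := by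
    by_contra hcon
    push Not at hcon
    exact hxZ ⟨hxD, hcon⟩
  obtain ⟨d, ⟨hdD, hxd⟩, d', hd'D, hd'N, hdd'⟩ := MI.conn hD (P := {d | d ∈ D ∧ G.Adj x d})
    (fun d hd => hd.1) ⟨d1, hd1, hxd1⟩ (fun h => by
      have : d0 ∈ {d | d ∈ D ∧ G.Adj x d} := by rw [h]; exact hd0
      exact hxd0 this.2)
  have hxd' : ¬ G.Adj x d' := fun h => hd'N ⟨hd'D, h⟩
  have hxA : ¬ adC G v a b c x := fun h =>
    lemmaP hff hcl h hxd hdd' hxd' (hDadC d hdD) (hDadC d' hd'D)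
  have hzC : ¬ inC z := fun h => hxA (hadj z x h hzx.symm)
  have hzd : ¬ G.Adj z d := hzS.1.2 d hdD
  have hzA : ¬ adC G v a b c z := fun h =>
    lemmaP hff hcl h hzx hxd hzd hxA (hDadC d hdD)
  rcases hzS.2 with h | h | ⟨z1, hz1, hz1A, hzz1⟩
  · exact hzC h
  · exact hzA h
  · by_cases hx1 : G.Adj z1 x
    · exact lemmaP hff hcl hz1A hx1 hxd (hz1.2 d hdD) hxA (hDadC d hdD)
    · exact lemmaP hff hcl hz1A hzz1.symm hzx hx1 hzA hxA

end Pool.Agent.H602PD
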