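import Pool.Agent.H602PD.WheelAnti

/-!
# 5-wheels: the icosahedron
-/

set_option autoImplicit false

namespace Pool.Agent.H602PD

variable {V : Type}


/-! ### Auxiliary lemmas for the target -/

theorem N2_sub_M {G : SimpleGraph V} {v x : V} (hx : x ∈ N2 G v) : x ∈ M G v := ⟨hx.1, hx.2.1⟩

theorem Wheel.rimne {G : SimpleGraph V} {v : V} {f : ZMod 5 → V} (hw : Wheel G v f) {x : V}
    (hx : x ∈ N2 G v) (i : ZMod 5) : f i ≠ x := by
  rintro rfl
  exact hx.2.1 (hw.hub i)

theorem E_N2 {G : SimpleGraph V} {v : V} {f : ZMod 5 → V} {i : ZMod 5} {x : V}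
    (hx : x ∈ E G v f i) : x ∈ N2 G v := hx.1

theorem Ea0 {G : SimpleGraph V} {v : V} {f : ZMod 5 → V} {i : ZMod 5} {x : V}
    (hx : x ∈ E G v f i) {j : ZMod 5} (hj : j = i) : G.Adj x (f j) := hj ▸ hx.2.1
theorem Ea1 {G : SimpleGraph V} {v : V} {f : ZMod 5 → V} {i : ZMod 5} {x : V}
    (hx : x ∈ E G v f i) {j : ZMod 5} (hj : j = i + 1) : G.Adj x (f j) := hj ▸ hx.2.2.1
theorem Ea2 {G : SimpleGraph V} {v : V} {f : ZMod 5 → V} {i : ZMod 5} {x : V}
    (hx : x ∈ E G v f i) {j : ZMod 5} (hj : j = i + 2) : ¬ G.Adj x (f j) := hj ▸ hx.2.2.2.1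
theorem Ea3 {G : SimpleGraph V} {v : V} {f : ZMod 5 → V} {i : ZMod 5} {x : V}
    (hx : x ∈ E G v f i) {j : ZMod 5} (hj : j = i + 3) : ¬ G.Adj x (f j) := hj ▸ hx.2.2.2.2.1
theorem Ea4 {G : SimpleGraph V} {v : V} {f : ZMod 5 → V} {i : ZMod 5} {x : V}
    (hx : x ∈ E G v f i) {j : ZMod 5} (hj : j = i + 4) : ¬ G.Adj x (f j) := hj ▸ hx.2.2.2.2.2

theorem Wheel.non' {G : SimpleGraph V} {v : V} {f : ZMod 5 → V} (hw : Wheel G v f) {i j : ZMod 5}
    (hj : j = i + 2) : ¬ G.Adj (f i) (f j) := hj ▸ hw.non i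

theorem Wheel.anti' [Fintype V] {G : SimpleGraph V} (hcf : ClawFree G) (hc : Core G) {v : V}
    {f : ZMod 5 → V} (hw : Wheel G v f) {i j : ZMod 5} (hj : j = i + 2) {x y : V}
    (hx : x ∈ E G v f i) (hy : y ∈ E G v f j) : ¬ G.Adj x y := by
  subst hj
  exact hw.anticomplete hcf hc i x hx y hy

/-- Step 1: the classes `E j` cover `N2`. -/
theorem Wheel.cover [Fintype V] {G : SimpleGraph V} (hcf : ClawFree G) (hc : Core G) {v : V}
    {f : ZMod 5 → V} (hw : Wheel G v f) {t : V} (ht : t ∈ N2 G v) : ∃ i, t ∈ E G v f i := by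
  rcases hw.type hcf ht with h | ⟨i, h0, h1, h2⟩
  · exact h
  · exfalso
    obtain ⟨e, he⟩ := hw.E_nonempty hcf hc (i + 2)
    obtain ⟨e', he'⟩ := hw.E_nonempty hcf hc (i + 4)
    have hte : t ≠ e := by
      rintro rfl
      exact Ea3 he (j := i) (by clear * - i; revert i; decide) h0
    have hte' : t ≠ e' := by
      rintro rfl
      exact Ea2 he' (j := i + 1) (by clear * - i; revert i; decide) h1
    have a1 : G.Adj t e := adj_of_common hcf (hw.hub (i + 2)) (N2_sub_M ht) (N2_sub_M (E_N2 he))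
      h2.symm (Ea0 he rfl).symm hte
    have a2 : G.Adj t e' := adj_of_common hcf (hw.hub i) (N2_sub_M ht) (N2_sub_M (E_N2 he'))
      h0.symm (Ea1 he' (j := i) (by clear * - i; revert i; decide)).symm hte'
    have n1 : ¬ G.Adj (f (i + 1)) e := fun h => Ea4 he (j := i + 1) (by clear * - i; revert i; decide) h.symm
    have n2 : ¬ G.Adj (f (i + 1)) e' := fun h => Ea2 he' (j := i + 1) (by clear * - i; revert i; decide) h.symm
    have n3 : ¬ G.Adj e e' := hw.anti' hcf hc (i := i + 2) (j := i + 4) (by clear * - i; revert i; decide) he he'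
    have d3 : e ≠ e' := by
      rintro rfl
      exact Ea3 he' (j := i + 2) (by clear * - i; revert i; decide) (Ea0 he rfl)
    exact hcf t (f (i + 1)) e e' h1 a1 a2 n1 n2 n3 (hw.rimne (E_N2 he) _) (hw.rimne (E_N2 he') _) d3

theorem mem_cases {G : SimpleGraph V} {v z : V} (hz : z ≠ v) :
    G.Adj v z ∨ z ∈ N2 G v ∨ z ∈ Y G v := by
  by_cases h1 : G.Adj v z
  · exact Or.inl h1
  · right
    by_cases h2 : ∃ p, G.Adj v p ∧ G.Adj p z
    · exact Or.inl ⟨hz, h1, h2⟩
    · right
      refine ⟨hz, h1, fun p hp hpz => h2 ⟨p, hp, hpz⟩⟩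

/-- Step 2: `Y` is a clique which is complete to `N2`. -/
theorem Wheel.Y_complete [Fintype V] {G : SimpleGraph V} (hcf : ClawFree G) (hc : Core G) {v : V}
    {f : ZMod 5 → V} (hw : Wheel G v f) :
    G.IsClique (Y G v) ∧ ∀ y ∈ Y G v, ∀ x ∈ N2 G v, G.Adj x y := by
  by_cases hX : (XS G v).Nonempty
  · obtain ⟨x₀, hx₀⟩ := hX
    obtain ⟨i₀, hi₀⟩ := hw.cover hcf hc hx₀.1
    have step : ∀ j : ZMod 5, (∃ x ∈ XS G v, x ∈ E G v f j) → ∀ y ∈ E G v f (j + 1), y ∈ XS G v := by
      rintro j ⟨x, hxs, hxj⟩ y hy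
      refine (E.same hcf hw ?_ hxj hy (E.next hcf hw hxj hy) hxs).1
      clear * - j
      revert j; decide
    have step' : ∀ j : ZMod 5, (∃ x ∈ XS G v, x ∈ E G v f j) →
        (∃ x ∈ XS G v, x ∈ E G v f (j + 1)) := by
      intro j hj
      obtain ⟨e, he⟩ := hw.E_nonempty hcf hc (j + 1)
      exact ⟨e, step j hj e he, he⟩
    have h0 : ∃ x ∈ XS G v, x ∈ E G v f i₀ := ⟨x₀, hx₀, hi₀⟩
    have h1 := step' _ h0
    have h2 := step' _ h1
    have h3 := step' _ h2
    have h4 := step' _ h3
    have hall : ∀ j : ZMod 5, ∃ x ∈ XS G v, x ∈ E G v f j := by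
      intro j
      have hj : j = i₀ ∨ j = i₀ + 1 ∨ j = i₀ + 1 + 1 ∨ j = i₀ + 1 + 1 + 1 ∨
          j = i₀ + 1 + 1 + 1 + 1 := by
        clear * - i₀ j
        revert i₀ j; decide
      rcases hj with rfl | rfl | rfl | rfl | rfl
      · exact h0
      · exact h1
      · exact h2
      · exact h3
      · exact h4
    have hsub : ∀ j : ZMod 5, ∀ y ∈ E G v f j, y ∈ XS G v := by
      intro j y hy
      have hj : j = (j + 4) + 1 := by clear * - j; revert j; decide
      rw [hj] at hy
      exact step _ (hall _) y hy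
    have hN2 : ∀ x ∈ N2 G v, x ∈ XS G v := by
      intro x hx
      obtain ⟨i, hi⟩ := hw.cover hcf hc hx
      exact hsub i x hi
    have hnc : ¬ G.IsClique (XS G v) := by
      intro hcl
      obtain ⟨e, he⟩ := hw.E_nonempty hcf hc 0
      obtain ⟨e', he'⟩ := hw.E_nonempty hcf hc 2
      have hne : e ≠ e' := by
        rintro rfl
        exact Ea3 he' (j := 0) (by decide) (Ea0 he rfl)
      exact hw.anti' hcf hc (i := 0) (j := 2) (by decide) he he'
        (hcl (hsub _ _ he) (hsub _ _ he') hne)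
    obtain ⟨hY1, hY2⟩ := complete_Y hcf hc (hw.same_NY hcf hc) hnc
    exact ⟨hY1, fun y hy x hx => hY2 y hy x (hN2 x hx)⟩
  · have hYe : ∀ y, y ∉ Y G v := by
      intro y hy
      have hne : (Y G v) ≠ Set.univ := by
        intro h
        have : v ∈ Y G v := by rw [h]; trivial
        exact this.1 rfl
      obtain ⟨p, hp, q, hq, hpq⟩ := hc.conn (Y G v) ⟨y, hy⟩ hne
      have hqv : q ≠ v := by
        rintro rfl
        exact hp.2.1 hpq.symm
      rcases mem_cases (G := G) hqv with h | h | h
      · exact hp.2.2 q h hpq.symm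
      · exact hX ⟨q, h, p, hp, hpq.symm⟩
      · exact hq h
    exact ⟨fun x hx => absurd hx (hYe x), fun y hy => absurd hy (hYe y)⟩

/-- Step 3. -/
theorem Wheel.nbr [Fintype V] {G : SimpleGraph V} (hcf : ClawFree G) (hc : Core G) {v : V}
    {f : ZMod 5 → V} (hw : Wheel G v f) {i : ZMod 5} {p e : V} (hp : G.Adj v p)
    (he : e ∈ E G v f i) (hpe : G.Adj p e) :
    (p = f i ∨ G.Adj p (f i)) ∧ (p = f (i + 1) ∨ G.Adj p (f (i + 1))) := by
  have hne : ∀ j : ZMod 5, ¬ G.Adj e (f j) → f j ≠ p := by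
    rintro j hj rfl
    exact hj hpe.symm
  have n2 : ¬ G.Adj e (f (i + 2)) := Ea2 he rfl
  have n3 : ¬ G.Adj e (f (i + 3)) := Ea3 he rfl
  have n4 : ¬ G.Adj e (f (i + 4)) := Ea4 he rfl
  have n24 : ¬ G.Adj (f (i + 2)) (f (i + 4)) := hw.non' (by clear * - i; revert i; decide)
  have d24 : f (i + 2) ≠ f (i + 4) := hw.ne (by clear * - i; revert i; decide)
  have claw24 : G.Adj p (f (i + 2)) → G.Adj p (f (i + 4)) → False := fun h2 h4 =>
    hcf p e (f (i + 2)) (f (i + 4)) hpe h2 h4 n2 n4 n24 (hw.rimne (E_N2 he) _).symm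
      (hw.rimne (E_N2 he) _).symm d24
  constructor
  · by_contra hcon
    rw [not_or] at hcon
    obtain ⟨hpi, hpa⟩ := hcon
    have a2 : G.Adj p (f (i + 2)) := by
      rcases adj_or_of_nonadj hcf hp (hw.hub i) (hw.hub (i + 2)) hpa hpi (hne _ n2)
        (hw.ne (by clear * - i; revert i; decide)) with h | h
      · exact h.symm
      · exact absurd h.symm (hw.non i)
    have a3 : G.Adj p (f (i + 3)) := by
      rcases adj_or_of_nonadj hcf hp (hw.hub i) (hw.hub (i + 3)) hpa hpi (hne _ n3)
        (hw.ne (by clear * - i; revert i; decide)) with h | h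
      · exact h.symm
      · exact absurd h (hw.non' (by clear * - i; revert i; decide))
    have n4' : ¬ G.Adj p (f (i + 4)) := fun h => claw24 a2 h
    obtain ⟨e', he'⟩ := hw.E_nonempty hcf hc (i + 2)
    have ap : G.Adj p e' := by
      by_contra hpe'
      have hpne : p ≠ e' := by
        rintro rfl
        exact (E_N2 he').2.1 hp
      have a34 : G.Adj (f (i + 3)) (f (i + 4)) := by
        have := hw.rim (i + 3)
        have h5 : i + 3 + 1 = i + 4 := by clear * - i; revert i; decide
        rwa [h5] at this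
      have a3e : G.Adj (f (i + 3)) e' := (Ea1 he' (j := i + 3) (by clear * - i; revert i; decide)).symm
      have n4e : ¬ G.Adj (f (i + 4)) e' := fun h => Ea2 he' (j := i + 4) (by clear * - i; revert i; decide) h.symm
      exact hcf (f (i + 3)) p (f (i + 4)) e' a3.symm a34 a3e n4' hpe' n4e (hne _ n4).symm hpne
        (hw.rimne (E_N2 he') _)
    have hee : e ≠ e' := by
      rintro rfl
      exact Ea3 he' (j := i) (by clear * - i; revert i; decide) (Ea0 he rfl)
    exact hw.anti' hcf hc (i := i) (j := i + 2) rfl he he'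
      (adj_of_common hcf hp (N2_sub_M (E_N2 he)) (N2_sub_M (E_N2 he')) hpe ap hee)
  · by_contra hcon
    rw [not_or] at hcon
    obtain ⟨hpi, hpa⟩ := hcon
    have a3 : G.Adj p (f (i + 3)) := by
      rcases adj_or_of_nonadj hcf hp (hw.hub (i + 1)) (hw.hub (i + 3)) hpa hpi (hne _ n3)
        (hw.ne (by clear * - i; revert i; decide)) with h | h
      · exact h.symm
      · exact absurd h.symm (hw.non' (by clear * - i; revert i; decide))
    have a4 : G.Adj p (f (i + 4)) := by
      rcases adj_or_of_nonadj hcf hp (hw.hub (i + 1)) (hw.hub (i + 4)) hpa hpi (hne _ n4)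
        (hw.ne (by clear * - i; revert i; decide)) with h | h
      · exact h.symm
      · exact absurd h (hw.non' (by clear * - i; revert i; decide))
    have n2' : ¬ G.Adj p (f (i + 2)) := fun h => claw24 h a4
    obtain ⟨e', he'⟩ := hw.E_nonempty hcf hc (i + 3)
    have ap : G.Adj p e' := by
      by_contra hpe'
      have hpne : p ≠ e' := by
        rintro rfl
        exact (E_N2 he').2.1 hp
      have a32 : G.Adj (f (i + 3)) (f (i + 2)) := by
        have := hw.rim (i + 2)
        have h5 : i + 2 + 1 = i + 3 := by clear * - i; revert i; decide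
        rw [h5] at this
        exact this.symm
      have a3e : G.Adj (f (i + 3)) e' := (Ea0 he' rfl).symm
      have n2e : ¬ G.Adj (f (i + 2)) e' := fun h => Ea4 he' (j := i + 2) (by clear * - i; revert i; decide) h.symm
      exact hcf (f (i + 3)) p (f (i + 2)) e' a3.symm a32 a3e n2' hpe' n2e (hne _ n2).symm hpne
        (hw.rimne (E_N2 he') _)
    have hee : e' ≠ e := by
      rintro rfl
      exact Ea2 he' (j := i) (by clear * - i; revert i; decide) (Ea0 he rfl)
    exact hw.anti' hcf hc (i := i + 3) (j := i) (by clear * - i; revert i; decide) he' he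
      (adj_of_common hcf hp (N2_sub_M (E_N2 he')) (N2_sub_M (E_N2 he)) ap hpe hee)

theorem Wheel.false [Fintype V] {G : SimpleGraph V} (hcf : ClawFree G) (hc : Core G) {v : V}
    {f : ZMod 5 → V} (hw : Wheel G v f) : False := by
  obtain ⟨hY, hYN⟩ := hw.Y_complete hcf hc
  have hEcl : ∀ i, G.IsClique (E G v f i) := fun i => E.clique hcf hw i
  have hEY : ∀ i, G.IsClique (E G v f i ∪ Y G v) := by
    rintro i a (ha | ha) b (hb | hb) hab
    · exact hEcl i ha hb hab
    · exact hYN b hb a (E_N2 ha)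
    · exact (hYN a ha b (E_N2 hb)).symm
    · exact hY ha hb hab
  have hYrim : ∀ y ∈ Y G v, ∀ i, ¬ G.Adj (f i) y := fun y hy i => hy.2.2 _ (hw.hub i)
  have hYv : ∀ y ∈ Y G v, ¬ G.Adj v y := fun y hy => hy.2.1
  have hN2Y : ∀ y ∈ Y G v, y ∉ N2 G v := by
    rintro y hy ⟨-, -, p, hp, hpy⟩
    exact hy.2.2 p hp hpy
  -- the perfect set
  have P1 : Perf G ({f 0, v} ∪ {v, f 3}) := by
    apply perf_two_cliques
    · intro a ha b hb hab
      rcases ha with rfl | ha <;> rcases hb with rfl | hb
      · exact absurd rfl hab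
      · rw [Set.mem_singleton_iff] at hb; subst hb; exact (hw.hub 0).symm
      · rw [Set.mem_singleton_iff] at ha; subst ha; exact hw.hub 0
      · rw [Set.mem_singleton_iff] at ha hb; subst ha; subst hb; exact absurd rfl hab
    · intro a ha b hb hab
      rcases ha with rfl | ha <;> rcases hb with rfl | hb
      · exact absurd rfl hab
      · rw [Set.mem_singleton_iff] at hb; subst hb; exact hw.hub 3
      · rw [Set.mem_singleton_iff] at ha; subst ha; exact (hw.hub 3).symm
      · rw [Set.mem_singleton_iff] at ha hb; subst ha; subst hb; exact absurd rfl hab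
  have Q2 : G.IsClique (insert (f 3) (E G v f 3)) := by
    intro a ha b hb hab
    rcases ha with rfl | ha <;> rcases hb with rfl | hb
    · exact absurd rfl hab
    · exact (Ea0 hb rfl).symm
    · exact Ea0 ha rfl
    · exact hEcl 3 ha hb hab
  have P2 : Perf G (({f 0, v} ∪ {v, f 3}) ∪ insert (f 3) (E G v f 3)) := by
    apply perf_glue P1 (perf_clique Q2)
    · exact Q2.subset Set.inter_subset_right
    · rintro a ha ha' b (rfl | hb) hb'
      · exact absurd (Or.inr (Or.inr rfl)) hb'
      · rcases ha with (rfl | ha) | (rfl | ha)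
        · exact fun h => Ea2 hb (j := 0) (by decide) h.symm
        · rw [Set.mem_singleton_iff] at ha; subst ha; exact (E_N2 hb).2.1
        · exact (E_N2 hb).2.1
        · rw [Set.mem_singleton_iff] at ha; subst ha; exact absurd (Or.inl rfl) ha'
  have P3 : Perf G ((({f 0, v} ∪ {v, f 3}) ∪ insert (f 3) (E G v f 3)) ∪ (E G v f 3 ∪ Y G v)) := by
    apply perf_glue P2 (perf_clique (hEY 3))
    · exact (hEY 3).subset Set.inter_subset_right
    · rintro a ha ha' b (hb | hb) hb'
      · exact absurd (Or.inr (Or.inr hb)) hb'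
      · rcases ha with ((rfl | ha) | (rfl | ha)) | (rfl | ha)
        · exact hYrim b hb 0
        · rw [Set.mem_singleton_iff] at ha; subst ha; exact hYv b hb
        · exact hYv b hb
        · rw [Set.mem_singleton_iff] at ha; subst ha; exact hYrim b hb 3
        · exact hYrim b hb 3
        · exact absurd (Or.inl ha) ha'
  have P4 : Perf G (((({f 0, v} ∪ {v, f 3}) ∪ insert (f 3) (E G v f 3)) ∪ (E G v f 3 ∪ Y G v)) ∪
      (E G v f 1 ∪ Y G v)) := by
    apply perf_glue P3 (perf_clique (hEY 1))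
    · exact (hEY 1).subset Set.inter_subset_right
    · rintro a ha ha' b (hb | hb) hb'
      · rcases ha with (((rfl | ha) | (rfl | ha)) | (rfl | ha)) | (ha | ha)
        · exact fun h => Ea4 hb (j := 0) (by decide) h.symm
        · rw [Set.mem_singleton_iff] at ha; subst ha; exact (E_N2 hb).2.1
        · exact (E_N2 hb).2.1
        · rw [Set.mem_singleton_iff] at ha; subst ha
          exact fun h => Ea2 hb (j := 3) (by decide) h.symm
        · exact fun h => Ea2 hb (j := 3) (by decide) h.symm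
        · exact fun h => hw.anti' hcf hc (i := 1) (j := 3) (by decide) hb ha h.symm
        · exact fun h => hw.anti' hcf hc (i := 1) (j := 3) (by decide) hb ha h.symm
        · exact absurd (Or.inr ha) ha'
      · exact absurd (Or.inr (Or.inr hb)) hb'
  set A : Set V := (((({f 0, v} ∪ {v, f 3}) ∪ insert (f 3) (E G v f 3)) ∪ (E G v f 3 ∪ Y G v)) ∪
      (E G v f 1 ∪ Y G v)) with hA
  have mv : v ∈ A := Or.inl (Or.inl (Or.inl (Or.inr (Or.inl rfl))))
  have m0 : f 0 ∈ A := Or.inl (Or.inl (Or.inl (Or.inl (Or.inl rfl))))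
  have m3 : f 3 ∈ A := Or.inl (Or.inl (Or.inr (Or.inl rfl)))
  have mE3 : ∀ x ∈ E G v f 3, x ∈ A := fun x hx => Or.inl (Or.inr (Or.inl hx))
  have mE1 : ∀ x ∈ E G v f 1, x ∈ A := fun x hx => Or.inr (Or.inl hx)
  have mY : ∀ x ∈ Y G v, x ∈ A := fun x hx => Or.inr (Or.inr hx)
  refine hc.cut Set.univ A ⟨v, trivial⟩ (Set.subset_univ _) ?_ ?_
  · intro B hB _
    have : B = ∅ := Set.eq_empty_of_forall_notMem fun b hb => hB b hb trivial
    rw [this, Set.union_empty]
    exact P4
  · intro K hK _
    by_contra hcon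
    have hKA : ∀ z ∈ K, z ∉ A := fun z hz hzA => hcon ⟨z, hz, hzA⟩
    have hvK : v ∉ K := fun h => hKA v h mv
    -- types of the elements of `K`
    have htype : ∀ z ∈ K, G.Adj v z ∨ z ∈ E G v f 0 ∨ z ∈ E G v f 2 ∨ z ∈ E G v f 4 := by
      intro z hz
      have hzv : z ≠ v := by rintro rfl; exact hvK hz
      rcases mem_cases (G := G) hzv with h | h | h
      · exact Or.inl h
      · right
        obtain ⟨i, hi⟩ := hw.cover hcf hc h
        have hi5 : i = 0 ∨ i = 1 ∨ i = 2 ∨ i = 3 ∨ i = 4 := by clear * - i; revert i; decide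
        rcases hi5 with rfl | rfl | rfl | rfl | rfl
        · exact Or.inl hi
        · exact absurd (mE1 z hi) (hKA z hz)
        · exact Or.inr (Or.inl hi)
        · exact absurd (mE3 z hi) (hKA z hz)
        · exact Or.inr (Or.inr hi)
      · exact absurd (mY z h) (hKA z hz)
    -- no element of `E 2`
    have hno2 : ∀ e ∈ K, e ∉ E G v f 2 := by
      intro e heK he
      apply hKA (f 3) _ m3
      apply hK.2
      intro z hz hne
      by_cases hze : z = e
      · subst hze
        exact (Ea1 he (j := 3) (by decide)).symm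
      have hadj : G.Adj z e := hK.1 hz heK hze
      rcases htype z hz with h | h | h | h
      · rcases (hw.nbr hcf hc h he hadj).2 with h' | h'
        · have h3 : (2 : ZMod 5) + 1 = 3 := by decide
          rw [h3] at h'
          exact absurd h'.symm hne
        · have h3 : (2 : ZMod 5) + 1 = 3 := by decide
          rw [h3] at h'
          exact h'.symm
      · exact absurd hadj (hw.anti' hcf hc (i := 0) (j := 2) (by decide) h he)
      · exact (Ea1 h (j := 3) (by decide)).symm
      · exact absurd hadj.symm (hw.anti' hcf hc (i := 2) (j := 4) (by decide) he h)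
    -- some element outside the neighbourhood of `v`
    have hex : ∃ e ∈ K, ¬ G.Adj v e := by
      by_contra hall
      apply hvK
      apply hK.2
      intro y hy _
      by_contra h
      exact hall ⟨y, hy, h⟩
    obtain ⟨e, heK, hev⟩ := hex
    have he04 : e ∈ E G v f 0 ∨ e ∈ E G v f 4 := by
      rcases htype e heK with h | h | h | h
      · exact absurd h hev
      · exact Or.inl h
      · exact absurd h (hno2 e heK)
      · exact Or.inr h
    apply hKA (f 0) _ m0
    apply hK.2
    intro z hz hne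
    have h5 : (4 : ZMod 5) + 1 = 0 := by decide
    rcases htype z hz with h | h | h | h
    · have hze : z ≠ e := by
        rintro rfl
        exact hev h
      have hadj : G.Adj z e := hK.1 hz heK hze
      rcases he04 with he | he
      · rcases (hw.nbr hcf hc h he hadj).1 with h' | h'
        · exact absurd h'.symm hne
        · exact h'.symm
      · rcases (hw.nbr hcf hc h he hadj).2 with h' | h'
        · rw [h5] at h'
          exact absurd h'.symm hne
        · rw [h5] at h'
          exact h'.symm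
    · exact (Ea0 h rfl).symm
    · exact absurd h (hno2 z hz)
    · exact (Ea1 h (j := 0) (by decide)).symm

end Pool.Agent.H602PD
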