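import Pool.Agent.H602PD.QLGood
import Pool.Agent.H602PD.ForkFinal
import Pool.Agent.H602PD.WheelFinal

/-!
# Every fork-free graph is perfectly divisible
-/

set_option autoImplicit false

namespace Pool.Agent.H602PD

variable {V : Type}


theorem perf_of_induce {G : SimpleGraph V} {S : Set V} {A : Set ↥S}
    (h : Perf (G.induce S) A) : Perf G (Subtype.val '' A) := by
  classical
  intro T hT k hk
  have hTS : ∀ v ∈ T, v ∈ S := fun v hv => by
    obtain ⟨x, -, rfl⟩ := hT hv
    exact x.2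
  obtain ⟨f, hf1, hf2⟩ := h (Subtype.val ⁻¹' T) (by
    intro x hx
    obtain ⟨y, hy, hyx⟩ := hT hx
    rwa [Subtype.val_injective hyx] at hy) k (by
    intro K hK hKc
    have h1 := hk (Subtype.val '' K) (by
      rintro _ ⟨x, hx, rfl⟩
      exact hK hx) (by
      rintro _ ⟨x, hx, rfl⟩ _ ⟨y, hy, rfl⟩ hxy
      exact hKc hx hy (fun h => hxy (by rw [h])))
    rwa [Set.ncard_image_of_injective _ Subtype.val_injective] at h1)
  refine ⟨fun v => if h : v ∈ S then f ⟨v, h⟩ else 0, ?_, ?_⟩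
  · intro v hv
    simp only [hTS v hv, dite_true]
    exact hf1 ⟨v, hTS v hv⟩ hv
  · intro u hu v hv huv
    simp only [hTS v hv, hTS u hu, dite_true]
    exact hf2 ⟨u, hTS u hu⟩ hu ⟨v, hTS v hv⟩ hv huv

theorem wt_induce [Fintype V] {S : Set V} [Fintype ↥S] (w : V → ℕ) {K : Set V} (hK : K ⊆ S) :
    wt (fun x : ↥S => w x.1) (Subtype.val ⁻¹' K) = wt w K := by
  classical
  unfold wt
  have h1 : ∀ x : ↥S, Set.indicator (Subtype.val ⁻¹' K) (fun x : ↥S => w x.1) x
      = Set.indicator K w x.1 := by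
    intro x
    by_cases hx : x.1 ∈ K
    · rw [Set.indicator_of_mem hx, Set.indicator_of_mem (show x ∈ Subtype.val ⁻¹' K from hx)]
    · rw [Set.indicator_of_notMem hx, Set.indicator_of_notMem (show x ∉ Subtype.val ⁻¹' K from hx)]
  rw [Finset.sum_congr rfl (fun x _ => h1 x)]
  have h2 : ∑ x : ↥S, Set.indicator K w x.1 = ∑ v ∈ S.toFinset, Set.indicator K w v := by
    rw [← Finset.sum_coe_sort S.toFinset]
    exact Fintype.sum_equiv (Equiv.subtypeEquivRight (by simp)) _ _ (fun x => rfl)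
  rw [h2]
  refine Finset.sum_subset (Finset.subset_univ _) (fun v _ hv => ?_)
  rw [Set.mem_toFinset] at hv
  exact Set.indicator_of_notMem (fun h => hv (hK h)) w

theorem goodSet_of_induce [Fintype V] {G : SimpleGraph V} {w : V → ℕ} {S : Set V} [Fintype ↥S]
    (h : GoodSet (G.induce S) (fun x : ↥S => w x.1) Set.univ) : GoodSet G w S := by
  obtain ⟨A, -, hA, hh⟩ := h
  refine ⟨Subtype.val '' A, ?_, perf_of_induce hA, ?_⟩
  · rintro _ ⟨x, -, rfl⟩
    exact x.2
  · rintro K ⟨hKS, hKc, hKm⟩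
    obtain ⟨x, hx1, hx2⟩ := hh (Subtype.val ⁻¹' K) ⟨Set.subset_univ _, by
      intro x hx y hy hxy
      exact hKc hx hy (fun h => hxy (Subtype.val_injective h)), by
      intro K' _ hK'
      rw [wt_induce w hKS]
      have h1 : (Subtype.val ⁻¹' (Subtype.val '' K') : Set ↥S) = K' :=
        Set.preimage_image_eq _ Subtype.val_injective
      have h2 : (Subtype.val '' K' : Set V) ⊆ S := by
        rintro _ ⟨x, -, rfl⟩
        exact x.2
      rw [← h1, wt_induce w h2]
      refine hKm _ h2 ?_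
      rintro _ ⟨x, hx, rfl⟩ _ ⟨y, hy, rfl⟩ hxy
      exact hK' hx hy (fun h => hxy (by rw [h]))⟩
    exact ⟨x.1, hx1, x, hx2, rfl⟩

theorem ForkFree.induce {G : SimpleGraph V} (h : ForkFree G) (S : Set V) :
    ForkFree (G.induce S) := by
  intro a b c d e h1 h2 h3 h4 h5 h6 h7 h8 h9 h10 h11
  exact h a.1 b.1 c.1 d.1 e.1 h1 h2 h3 h4 h5 h6 h7 h8 h9 h10 (fun h => h11 (Subtype.val_injective h))


theorem exists_heavy [Fintype V] (G : SimpleGraph V) (w : V → ℕ) (S : Set V) :
    ∃ K, Heavy G w S K := by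
  classical
  have hfin : Set.Finite {K : Set V | K ⊆ S ∧ G.IsClique K} := Set.toFinite _
  obtain ⟨K, hK, hmax⟩ := Set.exists_max_image _ (wt w) hfin
    ⟨∅, Set.empty_subset _, by simp⟩
  exact ⟨K, hK.1, hK.2, fun K' h1 h2 => hmax K' ⟨h1, h2⟩⟩

theorem exists_max_clique [Fintype V] (G : SimpleGraph V) (T : Set V) :
    ∃ K : Set V, K ⊆ T ∧ G.IsClique K ∧ CB G T K.ncard := by
  classical
  have hfin : Set.Finite {K : Set V | K ⊆ T ∧ G.IsClique K} := Set.toFinite _
  obtain ⟨K, hK, hmax⟩ := Set.exists_max_image _ Set.ncard hfin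
    ⟨∅, Set.empty_subset _, by simp⟩
  exact ⟨K, hK.1, hK.2, fun K' h1 h2 => hmax K' ⟨h1, h2⟩⟩

theorem wt_one [Fintype V] (K : Set V) : wt (fun _ => 1) K = K.ncard := by
  classical
  unfold wt
  rw [Set.ncard_eq_toFinset_card', Finset.card_eq_sum_ones]
  symm
  rw [← Finset.sum_subset (Finset.subset_univ K.toFinset)]
  · refine Finset.sum_congr rfl (fun v hv => ?_)
    rw [Set.indicator_of_mem (Set.mem_toFinset.1 hv)]
  · intro v _ hv
    rw [Set.mem_toFinset] at hv
    exact Set.indicator_of_notMem hv _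

theorem noWheel_of_core [Fintype V] {G : SimpleGraph V} (hcf : ClawFree G) (hc : Core G) :
    NoWheel G :=
  fun _ _ h1 h2 h3 => Wheel.false hcf hc ⟨h1, h2, h3⟩

/-- Every fork-free graph with positive weights has a perfect set meeting all heavy cliques. -/
theorem main_good : ∀ (n : ℕ) (V : Type) [Fintype V], Fintype.card V = n → Nonempty V →
    ∀ G : SimpleGraph V, ForkFree G → ∀ w : V → ℕ, (∀ v, 0 < w v) → GoodSet G w Set.univ := by
  classical
  intro n
  induction n using Nat.strong_induction_on with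
  | _ n ih =>
    intro V _ hV hne G hff w hw
    by_contra hbad
    have hce : MinCE G w := by
      refine ⟨hw, ?_, hbad⟩
      intro S hS hSu w' hw'
      obtain ⟨x, hx⟩ := hS
      refine goodSet_of_induce (ih (Fintype.card ↥S) ?_ ↥S rfl ⟨⟨x, hx⟩⟩ (G.induce S)
        (hff.induce S) _ (fun v => hw' v.1))
      rw [← hV]
      obtain ⟨y, hy⟩ : ∃ y, y ∉ S := by
        by_contra hcon
        push Not at hcon
        exact hSu (Set.eq_univ_of_forall hcon)
      exact Fintype.card_subtype_lt hy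
    have hc := hce.core
    have hcf := clawFree_of_core hff hc
    exact hbad (goodSet_of_noWheel hcf hc (noWheel_of_core hcf hc) hw)

theorem colorable_of_col {G : SimpleGraph V} {T : Set V} {k : ℕ} (h : Col G T k) :
    (G.induce T).Colorable k := by
  obtain ⟨f, h1, h2⟩ := h
  exact ⟨SimpleGraph.Coloring.mk (fun v => (⟨f v.1, h1 v.1 v.2⟩ : Fin k)) (by
    intro u v huv h
    exact h2 u.1 u.2 v.1 v.2 huv (Fin.mk.inj h))⟩

theorem perfectly_divisible [Fintype V] {G : SimpleGraph V} (hff : ForkFree G) {S : Set V}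
    (hS : S.Nonempty) :
    ∃ A B : Set V, A ∪ B = S ∧ Disjoint A B ∧
        (∀ T : Set V, T ⊆ A →
          ∃ s : Finset V, (↑s : Set V) ⊆ T ∧ G.IsClique (↑s : Set V) ∧
            (G.induce T).Colorable s.card) ∧
        (∃ s : Finset V, (↑s : Set V) ⊆ S ∧ G.IsClique (↑s : Set V) ∧
          ∀ t : Finset V, (↑t : Set V) ⊆ B → G.IsClique (↑t : Set V) → t.card < s.card) := by
  classical
  obtain ⟨x, hx⟩ := hS
  obtain ⟨A, hAS, hA, hh⟩ := goodSet_of_induce (main_good _ ↥S rfl ⟨⟨x, hx⟩⟩ (G.induce S)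
    (hff.induce S) (fun _ => 1) (fun _ => Nat.one_pos)) (G := G) (w := fun _ => 1)
  refine ⟨A, S \ A, Set.union_sdiff_cancel hAS, Set.disjoint_sdiff_right, ?_, ?_⟩
  · intro T hT
    obtain ⟨K, hK1, hK2, hK3⟩ := exists_max_clique G T
    refine ⟨K.toFinset, by simpa using hK1, by simpa using hK2, ?_⟩
    rw [← Set.ncard_eq_toFinset_card']
    exact colorable_of_col (hA T hT _ hK3)
  · obtain ⟨K, hK⟩ := exists_heavy G (fun _ => 1) S
    refine ⟨K.toFinset, by simpa using hK.1, by simpa using hK.2.1, ?_⟩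
    intro t ht htc
    by_contra hcon
    rw [not_lt, ← Set.ncard_eq_toFinset_card'] at hcon
    have h1 : ∀ K' : Set V, wt (fun _ => 1) K' = K'.ncard := wt_one
    obtain ⟨y, hy1, hy2⟩ := hh (↑t) ⟨fun v hv => (ht hv).1, htc, fun K' h2 h3 => by
      have h4 := hK.2.2 K' h2 h3
      rw [h1, h1] at h4
      rw [h1, h1, Set.ncard_coe_finset]
      exact h4.trans hcon⟩
    exact (ht hy1).2 hy2

end Pool.Agent.H602PD
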