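import Pool.Agent.H602PD.Glue
import Pool.Agent.H602PD.TwoCliques
import Pool.Agent.H602PD.Subst

/-!
# Minimal imperfect sets
-/

set_option autoImplicit false

namespace Pool.Agent.H602PD

variable {V : Type}


theorem exists_MI [Fintype V] {G : SimpleGraph V} {A : Set V} (h : ¬ Perf G A) :
    ∃ D, D ⊆ A ∧ MI G D := by
  classical
  obtain ⟨D, ⟨hDA, hD⟩, hmin⟩ := Set.exists_min_image {D : Set V | D ⊆ A ∧ ¬ Perf G D}
    (fun D => D.ncard) (Set.toFinite _) ⟨A, Set.Subset.rfl, h⟩
  refine ⟨D, hDA, hD, fun D' hD' => ?_⟩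
  by_contra hcon
  have h1 := hmin D' ⟨hD'.subset.trans hDA, hcon⟩
  have h2 := Set.ncard_lt_ncard hD' (Set.toFinite _)
  omega

theorem MI.nonempty [Fintype V] {G : SimpleGraph V} {D : Set V} (h : MI G D) : D.Nonempty := by
  rw [Set.nonempty_iff_ne_empty]
  rintro rfl
  exact h.1 (perf_clique (by simp))

theorem MI.two [Fintype V] {G : SimpleGraph V} {D S T : Set V} (h : MI G D) (hS : G.IsClique S)
    (hT : G.IsClique T) (hD : D ⊆ S ∪ T) : False :=
  h.1 ((perf_two_cliques hS hT).mono hD)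

theorem MI.mod [Fintype V] {G : SimpleGraph V} {D X : Set V} (h : MI G D) (hX : X ⊆ D)
    (hne : ∃ a ∈ X, ∃ b ∈ X, a ≠ b) (hX' : X ≠ D) (hm : Mod G D X) : False := by
  obtain ⟨a, ha, b, hb, hab⟩ := hne
  refine h.1 (perf_subst hX hm ha (h.2 _ ?_) (h.2 _ (Set.ssubset_iff_subset_ne.2 ⟨hX, hX'⟩)))
  rw [Set.ssubset_iff_of_subset]
  · refine ⟨b, hX hb, ?_⟩
    rintro (rfl | hb')
    · exact hab rfl
    · exact hb'.2 hb
  · rintro z (rfl | hz)
    · exact hX ha
    · exact hz.1

theorem MI.dom [Fintype V] {G : SimpleGraph V} {D : Set V} (h : MI G D) {x y : V} (hx : x ∈ D)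
    (hy : y ∈ D) (hxy : x ≠ y) : ∃ z ∈ D, G.Adj y z ∧ z ≠ x ∧ ¬ G.Adj x z := by
  classical
  by_contra hcon
  have hdom : ∀ z ∈ D, G.Adj y z → z ≠ x → G.Adj x z := by
    intro z hz h1 h2
    by_contra h3
    exact hcon ⟨z, hz, h1, h2, h3⟩
  -- the failing set is D itself
  have hfail : ∃ k, CB G D k ∧ ¬ Col G D k := by
    by_contra hno
    refine h.1 fun T hT k hk => ?_
    by_cases hTD : T = D
    · subst hTD
      by_contra hc
      exact hno ⟨k, hk, hc⟩
    · exact h.2 T (Set.ssubset_iff_subset_ne.2 ⟨hT, hTD⟩) T Set.Subset.rfl k hk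
  obtain ⟨k, hk, hcol⟩ := hfail
  have hsub : D \ {y} ⊂ D := by
    rw [Set.ssubset_iff_of_subset Set.sdiff_subset]
    exact ⟨y, hy, fun h' => h'.2 rfl⟩
  have hCB' : CB G (D \ {y}) k := fun K hK hc => hk K (hK.trans Set.sdiff_subset) hc
  obtain ⟨f, hf1, hf2⟩ := h.2 _ hsub _ Set.Subset.rfl k hCB'
  have hxD : x ∈ D \ {y} := ⟨hx, hxy⟩
  by_cases hadj : G.Adj x y
  · -- adjacent case
    have hkpos : 0 < k := lt_of_le_of_lt (Nat.zero_le _) (hf1 x hxD)
    set S : Set V := {z | z ∈ D \ {y} ∧ f z = f x} with hS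
    have hDS : D \ S ⊂ D := by
      rw [Set.ssubset_iff_of_subset Set.sdiff_subset]
      exact ⟨x, hx, fun h' => h'.2 ⟨hxD, rfl⟩⟩
    have hCB2 : CB G (D \ S) (k - 1) := by
      intro K hK hc
      by_contra hlt
      have hKk : K.ncard = k := by
        have := hk K (hK.trans Set.sdiff_subset) hc
        omega
      by_cases hyK : y ∈ K
      · -- insert x
        have hxK : x ∉ K := fun hxK => (hK hxK).2 ⟨hxD, rfl⟩
        have hc' : G.IsClique (insert x K) := by
          rw [SimpleGraph.isClique_insert]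
          refine ⟨hc, fun b hb hxb => ?_⟩
          by_cases hby : b = y
          · rw [hby]; exact hadj
          · exact hdom b (hK hb).1 (hc hyK hb (Ne.symm hby)) (Ne.symm hxb)
        have h1 := hk (insert x K) (by
          rintro z (rfl | hz)
          · exact hx
          · exact (hK hz).1) hc'
        rw [Set.ncard_insert_of_notMem hxK (Set.toFinite _)] at h1
        omega
      · -- K in D \ {y} uses all k colours
        have hKD : K ⊆ D \ {y} := fun z hz => ⟨(hK hz).1, fun h' => hyK (by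
          rw [Set.mem_singleton_iff] at h'; rw [← h']; exact hz)⟩
        have hinj : Set.InjOn f K := by
          intro a ha b hb hab
          by_contra hne
          exact hf2 a (hKD ha) b (hKD hb) (hc ha hb hne) hab
        have hmaps : f '' K ⊆ ((Finset.range k).erase (f x) : Finset ℕ) := by
          rintro _ ⟨a, ha, rfl⟩
          simp only [Finset.coe_erase, Finset.coe_range, Set.mem_sdiff, Set.mem_Iio,
            Set.mem_singleton_iff]
          refine ⟨hf1 a (hKD ha), fun he => (hK ha).2 ⟨hKD ha, he⟩⟩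
        have h1 : (f '' K).ncard ≤ k - 1 := by
          have h2 := Set.ncard_le_ncard hmaps (Finset.finite_toSet _)
          rw [Set.ncard_coe_finset, Finset.card_erase_of_mem (by
            rw [Finset.mem_range]; exact hf1 x hxD), Finset.card_range] at h2
          exact h2
        rw [Set.InjOn.ncard_image hinj] at h1
        omega
    obtain ⟨g, hg1, hg2⟩ := h.2 _ hDS _ Set.Subset.rfl (k - 1) hCB2
    apply hcol
    refine ⟨fun v => if v ∈ S then k - 1 else g v, ?_, ?_⟩
    · intro v hv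
      by_cases hvS : v ∈ S
      · simp only [hvS, if_true]; omega
      · simp only [hvS, if_false]
        have := hg1 v ⟨hv, hvS⟩
        omega
    · intro u hu v hv huv
      by_cases huS : u ∈ S
      · by_cases hvS : v ∈ S
        · exfalso
          exact hf2 u huS.1 v hvS.1 huv (huS.2.trans hvS.2.symm)
        · simp only [huS, hvS, if_true, if_false]
          have := hg1 v ⟨hv, hvS⟩
          omega
      · by_cases hvS : v ∈ S
        · simp only [huS, hvS, if_true, if_false]
          have := hg1 u ⟨hu, huS⟩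
          omega
        · simp only [huS, hvS, if_false]
          exact hg2 u ⟨hu, huS⟩ v ⟨hv, hvS⟩ huv
  · apply hcol
    refine ⟨fun v => if v = y then f x else f v, ?_, ?_⟩
    · intro v hv
      by_cases hvy : v = y
      · simp only [hvy, if_true]; exact hf1 x hxD
      · simp only [hvy, if_false]; exact hf1 v ⟨hv, hvy⟩
    · intro u hu v hv huv
      by_cases huy : u = y
      · by_cases hvy : v = y
        · subst huy; subst hvy; exact absurd huv (G.loopless.irrefl _)
        · simp only [huy, hvy, if_true, if_false]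
          subst huy
          have hvx : v ≠ x := by
            rintro rfl
            exact hadj huv.symm
          exact hf2 x hxD v ⟨hv, hvy⟩ (hdom v hv huv hvx)
      · by_cases hvy : v = y
        · simp only [huy, hvy, if_true, if_false]
          subst hvy
          have hux : u ≠ x := by
            rintro rfl
            exact hadj huv
          exact (hf2 x hxD u ⟨hu, huy⟩ (hdom u hu huv.symm hux)).symm
        · simp only [huy, hvy, if_false]
          exact hf2 u ⟨hu, huy⟩ v ⟨hv, hvy⟩ huv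

theorem MI.conn [Fintype V] {G : SimpleGraph V} {D P : Set V} (h : MI G D) (hP : P ⊆ D)
    (hne : P.Nonempty) (hP' : P ≠ D) : ∃ p ∈ P, ∃ q ∈ D, q ∉ P ∧ G.Adj p q := by
  by_contra hcon
  have h1 : Perf G P := h.2 P (Set.ssubset_iff_subset_ne.2 ⟨hP, hP'⟩)
  have h2 : Perf G (D \ P) := by
    apply h.2
    rw [Set.ssubset_iff_of_subset Set.sdiff_subset]
    obtain ⟨p, hp⟩ := hne
    exact ⟨p, hP hp, fun h' => h'.2 hp⟩
  have h3 : Perf G (P ∪ (D \ P)) := by
    apply perf_glue h1 h2
    · intro a ha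
      exact absurd ha.1 ha.2.2
    · intro a ha _ b hb _ hab
      exact hcon ⟨a, ha, b, hb.1, hb.2, hab⟩
  rw [Set.union_sdiff_cancel hP] at h3
  exact h.1 h3

theorem MI.nonadj [Fintype V] {G : SimpleGraph V} {D : Set V} (h : MI G D) {x : V} (hx : x ∈ D) :
    ∃ y ∈ D, y ≠ x ∧ ¬ G.Adj x y := by
  by_cases hD : ∃ y ∈ D, x ≠ y
  · obtain ⟨y, hy, hxy⟩ := hD
    obtain ⟨z, hz, -, hzx, hxz⟩ := h.dom hx hy hxy
    exact ⟨z, hz, hzx, hxz⟩
  · exfalso
    refine h.1 (perf_clique ?_)
    intro a ha b hb hab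
    exact absurd (by
      by_contra hne
      by_cases hax : x = a
      · exact hD ⟨b, hb, fun hxb => hab (hax.symm.trans hxb)⟩
      · exact hD ⟨a, ha, hax⟩) not_false

theorem MI.anti [Fintype V] {G : SimpleGraph V} {D P : Set V} (h : MI G D) (hP : P ⊆ D)
    (hne : P.Nonempty) (hP' : P ≠ D) : ∃ p ∈ P, ∃ q ∈ D, q ∉ P ∧ ¬ G.Adj p q := by
  by_contra hcon
  have hall : ∀ p ∈ P, ∀ q ∈ D, q ∉ P → G.Adj p q := by
    intro p hp q hq hqP
    by_contra hpq
    exact hcon ⟨p, hp, q, hq, hqP, hpq⟩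
  by_cases htwo : ∃ a ∈ P, ∃ b ∈ P, a ≠ b
  · exact h.mod hP htwo hP' fun z hz hzP => Or.inl fun x hx => (hall x hx z hz hzP).symm
  · obtain ⟨x, hx⟩ := hne
    obtain ⟨y, hy, hyx, hxy⟩ := h.nonadj (hP hx)
    have hyP : y ∉ P := fun hyP => htwo ⟨y, hyP, x, hx, hyx⟩
    exact hxy (hall x hx y hy hyP)

end Pool.Agent.H602PD
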