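import Pool.Agent.H602PD.Defs

/-!
# 5-wheels in claw-free graphs: basic facts
-/

set_option autoImplicit false

namespace Pool.Agent.H602PD

variable {V : Type}


/-- `v` is the hub of a 5-wheel with rim `f 0, ..., f 4`. -/
structure Wheel (G : SimpleGraph V) (v : V) (f : ZMod 5 → V) : Prop where
  hub : ∀ i, G.Adj v (f i)
  rim : ∀ i, G.Adj (f i) (f (i + 1))
  non : ∀ i, ¬ G.Adj (f i) (f (i + 2))

/-- Vertices at distance two from `v`. -/
def N2 (G : SimpleGraph V) (v : V) : Set V :=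
  {x | x ≠ v ∧ ¬ G.Adj v x ∧ ∃ p, G.Adj v p ∧ G.Adj p x}

/-- Vertices at distance at least three from `v`. -/
def Y (G : SimpleGraph V) (v : V) : Set V :=
  {x | x ≠ v ∧ ¬ G.Adj v x ∧ ∀ p, G.Adj v p → ¬ G.Adj p x}

/-- The neighbours of `x` in `Y`. -/
def NY (G : SimpleGraph V) (v x : V) : Set V := {y | y ∈ Y G v ∧ G.Adj x y}

/-- Vertices of `N2` with a neighbour in `Y`. -/
def XS (G : SimpleGraph V) (v : V) : Set V := {x | x ∈ N2 G v ∧ ∃ y ∈ Y G v, G.Adj x y}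

/-- Vertices of `N2` whose rim neighbours are exactly `f i` and `f (i + 1)`. -/
def E (G : SimpleGraph V) (v : V) (f : ZMod 5 → V) (i : ZMod 5) : Set V :=
  {x | x ∈ N2 G v ∧ G.Adj x (f i) ∧ G.Adj x (f (i + 1)) ∧ ¬ G.Adj x (f (i + 2)) ∧
    ¬ G.Adj x (f (i + 3)) ∧ ¬ G.Adj x (f (i + 4))}

theorem W1_five : ∀ i j : ZMod 5, j = i ∨ j = i + 1 ∨ j = i + 2 ∨ j = i + 3 ∨ j = i + 4 := by
  decide

theorem W1_M_of_N2 {G : SimpleGraph V} {v x : V} (hx : x ∈ N2 G v) : x ∈ M G v := ⟨hx.1, hx.2.1⟩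

theorem W1_ne {G : SimpleGraph V} {v x p : V} (hp : G.Adj v p) (hx : x ∈ M G v) : p ≠ x := by
  rintro rfl
  exact hx.2 hp

/-- The neighbours of a neighbour of `v` outside `N[v]` form a clique. -/
theorem adj_of_common {G : SimpleGraph V} (hcf : ClawFree G) {v p x y : V} (hp : G.Adj v p)
    (hx : x ∈ M G v) (hy : y ∈ M G v) (hpx : G.Adj p x) (hpy : G.Adj p y) (hxy : x ≠ y) :
    G.Adj x y := by
  by_contra h
  exact hcf p v x y hp.symm hpx hpy hx.2 hy.2 h hx.1.symm hy.1.symm hxy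

/-- `N(v)` has no stable triple: a vertex of `N(v)` not adjacent to `p` is adjacent to `q` if `p`, `q`
are non-adjacent in `N(v)`. -/
theorem adj_or_of_nonadj {G : SimpleGraph V} (hcf : ClawFree G) {v p q r : V} (hp : G.Adj v p)
    (hq : G.Adj v q) (hr : G.Adj v r) (hpq : ¬ G.Adj p q) (hne : p ≠ q) (hrp : r ≠ p) (hrq : r ≠ q) :
    G.Adj r p ∨ G.Adj r q := by
  by_contra h
  rw [not_or] at h
  exact hcf v p q r hp hq hr hpq (fun h' => h.1 h'.symm) (fun h' => h.2 h'.symm) hne hrp.symm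
    hrq.symm

theorem Wheel.ne {G : SimpleGraph V} {v : V} {f : ZMod 5 → V} (hw : Wheel G v f) {i j : ZMod 5}
    (hij : i ≠ j) : f i ≠ f j := by
  have two : ∀ i : ZMod 5, f i ≠ f (i + 2) := by
    intro i h
    have h1 := hw.rim (i + 2)
    rw [← h] at h1
    have h2 := hw.non (i + 2 + 1)
    have e : i + 2 + 1 + 2 = i := (by decide : ∀ i : ZMod 5, i + 2 + 1 + 2 = i) i
    rw [e] at h2
    exact h2 h1.symm
  have one : ∀ i : ZMod 5, f i ≠ f (i + 1) := fun i h => (hw.rim i).ne h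
  rcases W1_five i j with h | h | h | h | h
  · exact absurd h.symm hij
  · rw [h]; exact one i
  · rw [h]; exact two i
  · have h3 : i = j + 2 := by
      rw [h]; exact (by decide : ∀ i : ZMod 5, i = i + 3 + 2) i
    rw [h3]; exact (two j).symm
  · have h3 : i = j + 1 := by
      rw [h]; exact (by decide : ∀ i : ZMod 5, i = i + 4 + 1) i
    rw [h3]; exact (one j).symm

/-- Adjacency of rim vertices: exactly consecutive ones. -/
theorem Wheel.adj_iff {G : SimpleGraph V} {v : V} {f : ZMod 5 → V} (hw : Wheel G v f) (i j : ZMod 5) :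
    G.Adj (f i) (f j) ↔ (j = i + 1 ∨ j = i + 4) := by
  constructor
  · intro h
    rcases W1_five i j with h1 | h1 | h1 | h1 | h1
    · rw [h1] at h; exact absurd rfl h.ne
    · exact Or.inl h1
    · rw [h1] at h; exact absurd h (hw.non i)
    · exfalso
      have h3 : i = j + 2 := by
        rw [h1]; exact (by decide : ∀ i : ZMod 5, i = i + 3 + 2) i
      rw [h3] at h
      exact hw.non j h.symm
    · exact Or.inr h1
  · rintro (h | h)
    · rw [h]; exact hw.rim i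
    · have h3 : i = j + 1 := by
        rw [h]; exact (by decide : ∀ i : ZMod 5, i = i + 4 + 1) i
      rw [h3]; exact (hw.rim j).symm

theorem Wheel.next {G : SimpleGraph V} (hcf : ClawFree G) {v : V} {f : ZMod 5 → V}
    (hw : Wheel G v f) {x : V} (hx : x ∈ M G v) {i : ZMod 5} (hxi : G.Adj x (f i)) :
    G.Adj x (f (i + 1)) ∨ G.Adj x (f (i + 4)) := by
  by_contra h
  rw [not_or] at h
  refine hcf (f i) x (f (i + 1)) (f (i + 4)) hxi.symm (hw.rim i) ((hw.adj_iff i (i + 4)).2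
    (Or.inr rfl)) h.1 h.2 ?_ (W1_ne (hw.hub _) hx).symm (W1_ne (hw.hub _) hx).symm (hw.ne ?_)
  · rw [hw.adj_iff]
    exact (by decide : ∀ i : ZMod 5, ¬ (i + 4 = i + 1 + 1 ∨ i + 4 = i + 1 + 4)) i
  · exact (by decide : ∀ i : ZMod 5, i + 1 ≠ i + 4) i

theorem W1_ne_add_two : ∀ i : ZMod 5, i ≠ i + 2 := by decide

theorem Wheel.exists_adj {G : SimpleGraph V} (hcf : ClawFree G) {v : V} {f : ZMod 5 → V}
    (hw : Wheel G v f) {x : V} (hx : x ∈ N2 G v) : ∃ i, G.Adj x (f i) := by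
  obtain ⟨p, hvp, hpx⟩ := hx.2.2
  have hxM := W1_M_of_N2 hx
  by_cases hp : ∃ i, p = f i
  · obtain ⟨i, rfl⟩ := hp
    exact ⟨i, hpx.symm⟩
  · have hpi : ∀ i, p ≠ f i := fun i h => hp ⟨i, h⟩
    have hor : ∀ i, G.Adj p (f i) ∨ G.Adj p (f (i + 2)) := fun i =>
      adj_or_of_nonadj hcf (hw.hub i) (hw.hub (i + 2)) hvp (hw.non i) (hw.ne (W1_ne_add_two i))
        (hpi i) (hpi (i + 2))
    have hj : ∃ j, G.Adj p (f j) ∧ G.Adj p (f (j + 2)) := by
      have h0 := hor 0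
      have h1 := hor 1
      have h2 := hor 2
      have h3 := hor 3
      have h4 := hor 4
      have e0 : (0 : ZMod 5) + 2 = 2 := by decide
      have e1 : (1 : ZMod 5) + 2 = 3 := by decide
      have e2 : (2 : ZMod 5) + 2 = 4 := by decide
      have e3 : (3 : ZMod 5) + 2 = 0 := by decide
      have e4 : (4 : ZMod 5) + 2 = 1 := by decide
      rw [e0] at h0
      rw [e1] at h1
      rw [e2] at h2
      rw [e3] at h3
      rw [e4] at h4
      by_cases a0 : G.Adj p (f 0)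
      · by_cases a2 : G.Adj p (f 2)
        · exact ⟨0, a0, by rw [e0]; exact a2⟩
        · have a4 : G.Adj p (f 4) := h2.resolve_left a2
          rcases h1 with a1 | a3
          · exact ⟨4, a4, by rw [e4]; exact a1⟩
          · exact ⟨3, a3, by rw [e3]; exact a0⟩
      · have a2 : G.Adj p (f 2) := h0.resolve_left a0
        have a3 : G.Adj p (f 3) := h3.resolve_right a0
        rcases h4 with a4 | a1
        · exact ⟨2, a2, by rw [e2]; exact a4⟩
        · exact ⟨1, a1, by rw [e1]; exact a3⟩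
    obtain ⟨j, hj1, hj2⟩ := hj
    by_contra hcon
    have hc : ∀ i, ¬ G.Adj x (f i) := fun i h => hcon ⟨i, h⟩
    exact hcf p x (f j) (f (j + 2)) hpx hj1 hj2 (hc j) (hc (j + 2)) (hw.non j)
      (W1_ne (hw.hub _) hxM).symm (W1_ne (hw.hub _) hxM).symm (hw.ne (W1_ne_add_two j))

theorem Wheel.type {G : SimpleGraph V} (hcf : ClawFree G) {v : V} {f : ZMod 5 → V}
    (hw : Wheel G v f) {x : V} (hx : x ∈ N2 G v) :
    (∃ i, x ∈ E G v f i) ∨ (∃ i, G.Adj x (f i) ∧ G.Adj x (f (i + 1)) ∧ G.Adj x (f (i + 2))) := by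
  have hxM := W1_M_of_N2 hx
  have hpair : ∃ j, G.Adj x (f j) ∧ G.Adj x (f (j + 1)) := by
    obtain ⟨i, hi⟩ := Wheel.exists_adj hcf hw hx
    rcases Wheel.next hcf hw hxM hi with h | h
    · exact ⟨i, hi, h⟩
    · refine ⟨i + 4, h, ?_⟩
      rw [(by decide : ∀ i : ZMod 5, i + 4 + 1 = i) i]
      exact hi
  obtain ⟨j, hj1, hj2⟩ := hpair
  by_cases h2 : G.Adj x (f (j + 2))
  · exact Or.inr ⟨j, hj1, hj2, h2⟩
  · by_cases h4 : G.Adj x (f (j + 4))
    · refine Or.inr ⟨j + 4, h4, ?_, ?_⟩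
      · rw [(by decide : ∀ i : ZMod 5, i + 4 + 1 = i) j]; exact hj1
      · rw [(by decide : ∀ i : ZMod 5, i + 4 + 2 = i + 1) j]; exact hj2
    · refine Or.inl ⟨j, hx, hj1, hj2, h2, fun h3 => ?_, h4⟩
      rcases Wheel.next hcf hw hxM h3 with h | h
      · rw [(by decide : ∀ i : ZMod 5, i + 3 + 1 = i + 4) j] at h
        exact h4 h
      · rw [(by decide : ∀ i : ZMod 5, i + 3 + 4 = i + 2) j] at h
        exact h2 h

theorem XS.clique {G : SimpleGraph V} (hcf : ClawFree G) {v x p q : V} (hx : x ∈ XS G v)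
    (hp : G.Adj v p) (hq : G.Adj v q) (hpx : G.Adj p x) (hqx : G.Adj q x) (hpq : p ≠ q) :
    G.Adj p q := by
  obtain ⟨-, y, hy, hxy⟩ := hx
  have hyM : y ∈ M G v := ⟨hy.1, hy.2.1⟩
  by_contra h
  exact hcf x y p q hxy hpx.symm hqx.symm (fun h' => hy.2.2 p hp h'.symm)
    (fun h' => hy.2.2 q hq h'.symm) h (W1_ne hp hyM).symm (W1_ne hq hyM).symm hpq

theorem Wheel.xs_type {G : SimpleGraph V} (hcf : ClawFree G) {v : V} {f : ZMod 5 → V}
    (hw : Wheel G v f) {x : V} (hx : x ∈ XS G v) : ∃ i, x ∈ E G v f i := by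
  rcases Wheel.type hcf hw hx.1 with h | ⟨i, h0, -, h2⟩
  · exact h
  · exact absurd (XS.clique hcf hx (hw.hub i) (hw.hub (i + 2)) h0.symm h2.symm
      (hw.ne (W1_ne_add_two i))) (hw.non i)

theorem XS.dich {G : SimpleGraph V} (hcf : ClawFree G) {v x t : V} (hx : x ∈ XS G v)
    (ht : t ∈ N2 G v) (hxt : G.Adj x t) :
    NY G v x ⊆ NY G v t ∨ (∀ p, G.Adj v p → G.Adj p x → G.Adj p t) := by
  by_contra hcon
  rw [not_or, Set.not_subset] at hcon
  obtain ⟨⟨y, hyx, hyt⟩, hp⟩ := hcon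
  push Not at hp
  obtain ⟨p, hvp, hpx, hpt⟩ := hp
  have hyM : y ∈ M G v := ⟨hyx.1.1, hyx.1.2.1⟩
  have hyt' : ¬ G.Adj y t := fun h => hyt ⟨hyx.1, h.symm⟩
  have hne : y ≠ t := by
    rintro rfl
    obtain ⟨p', h1, h2⟩ := ht.2.2
    exact hyx.1.2.2 p' h1 h2
  exact hcf x y p t hyx.2 hpx.symm hxt (fun h => hyx.1.2.2 p hvp h.symm) hyt' hpt
    (W1_ne hvp hyM).symm hne (W1_ne hvp (W1_M_of_N2 ht))

theorem XS.ny_clique {G : SimpleGraph V} (hcf : ClawFree G) {v x : V} (hx : x ∈ N2 G v) :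
    G.IsClique (NY G v x) := by
  intro y hy y' hy' hne
  obtain ⟨p, hvp, hpx⟩ := hx.2.2
  have hyM : y ∈ M G v := ⟨hy.1.1, hy.1.2.1⟩
  have hyM' : y' ∈ M G v := ⟨hy'.1.1, hy'.1.2.1⟩
  by_contra h
  exact hcf x p y y' hpx.symm hy.2 hy'.2 (hy.1.2.2 p hvp) (hy'.1.2.2 p hvp) h
    (W1_ne hvp hyM) (W1_ne hvp hyM') hne

theorem E.clique {G : SimpleGraph V} (hcf : ClawFree G) {v : V} {f : ZMod 5 → V}
    (hw : Wheel G v f) (i : ZMod 5) : G.IsClique (E G v f i) := by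
  intro x hx y hy hne
  exact adj_of_common hcf (hw.hub i) (W1_M_of_N2 hx.1) (W1_M_of_N2 hy.1) hx.2.1.symm hy.2.1.symm hne

theorem E.next {G : SimpleGraph V} (hcf : ClawFree G) {v : V} {f : ZMod 5 → V}
    (hw : Wheel G v f) {i : ZMod 5} {x y : V} (hx : x ∈ E G v f i) (hy : y ∈ E G v f (i + 1)) :
    G.Adj x y := by
  refine adj_of_common hcf (hw.hub (i + 1)) (W1_M_of_N2 hx.1) (W1_M_of_N2 hy.1) hx.2.2.1.symm
    hy.2.1.symm ?_
  rintro rfl
  have h := hy.2.2.1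
  rw [(by decide : ∀ i : ZMod 5, i + 1 + 1 = i + 2) i] at h
  exact hx.2.2.2.1 h

theorem W1_E_not {G : SimpleGraph V} {v : V} {f : ZMod 5 → V} {i j : ZMod 5} (hij : i ≠ j) {y : V}
    (hy : y ∈ E G v f j) (h1 : G.Adj y (f i)) (h2 : G.Adj y (f (i + 1))) : False := by
  obtain ⟨-, -, -, y2, y3, y4⟩ := hy
  rcases W1_five i j with h | h | h | h | h
  · exact hij h.symm
  · rw [h, (by decide : ∀ i : ZMod 5, i + 1 + 4 = i) i] at y4
    exact y4 h1
  · rw [h, (by decide : ∀ i : ZMod 5, i + 2 + 3 = i) i] at y3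
    exact y3 h1
  · rw [h, (by decide : ∀ i : ZMod 5, i + 3 + 2 = i) i] at y2
    exact y2 h1
  · rw [h, (by decide : ∀ i : ZMod 5, i + 4 + 2 = i + 1) i] at y2
    exact y2 h2

theorem W1_NY_sub {G : SimpleGraph V} (hcf : ClawFree G) {v : V} {f : ZMod 5 → V}
    (hw : Wheel G v f) {i j : ZMod 5} (hij : i ≠ j) {x y : V} (hx : x ∈ E G v f i)
    (hy : y ∈ E G v f j) (hxy : G.Adj x y) (hxs : x ∈ XS G v) : NY G v x ⊆ NY G v y := by
  rcases XS.dich hcf hxs hy.1 hxy with h | h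
  · exact h
  · exact (W1_E_not hij hy (h _ (hw.hub i) hx.2.1.symm).symm
      (h _ (hw.hub (i + 1)) hx.2.2.1.symm).symm).elim

/-- Adjacent vertices of two different classes `E i`, `E j`, one of them in `XS`, have the same
neighbours in `Y`. -/
theorem E.same {G : SimpleGraph V} (hcf : ClawFree G) {v : V} {f : ZMod 5 → V}
    (hw : Wheel G v f) {i j : ZMod 5} (hij : i ≠ j) {x y : V} (hx : x ∈ E G v f i)
    (hy : y ∈ E G v f j) (hxy : G.Adj x y) (hxs : x ∈ XS G v) : y ∈ XS G v ∧ NY G v x = NY G v y := by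
  have h1 := W1_NY_sub hcf hw hij hx hy hxy hxs
  have hys : y ∈ XS G v := by
    obtain ⟨-, z, hz, hxz⟩ := hxs
    have := h1 (show z ∈ NY G v x from ⟨hz, hxz⟩)
    exact ⟨hy.1, z, hz, this.2⟩
  exact ⟨hys, h1.antisymm (W1_NY_sub hcf hw hij.symm hy hx hxy.symm hys)⟩

end Pool.Agent.H602PD
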