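import Pool.Agent.H602PD.WheelFacts
import Pool.Agent.H602PD.CoreProps

/-!
# 5-wheels: the attachments
-/

set_option autoImplicit false

namespace Pool.Agent.H602PD

variable {V : Type}


theorem w4_cover {G : SimpleGraph V} {v x : V} (hxv : x ≠ v) (hvx : ¬ G.Adj v x) :
    x ∈ N2 G v ∨ x ∈ Y G v := by
  by_cases h : ∃ p, G.Adj v p ∧ G.Adj p x
  · left; exact ⟨hxv, hvx, h⟩
  · right
    push Not at h
    exact ⟨hxv, hvx, h⟩

theorem w4_disj {G : SimpleGraph V} {v x : V} (h1 : x ∈ N2 G v) (h2 : x ∈ Y G v) : False := by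
  obtain ⟨_, _, p, hp, hpx⟩ := h1
  exact h2.2.2 p hp hpx

theorem not_perf_N2 [Fintype V] {G : SimpleGraph V} (hcf : ClawFree G) (hc : Core G) {v : V}
    (hs : ∀ x ∈ XS G v, ∀ z ∈ XS G v, NY G v x = NY G v z) (hX : G.IsClique (XS G v)) :
    ¬ Perf G (N2 G v) := by
  classical
  intro hP
  refine hc.cut {x | x ∉ Y G v} (insert v (N2 G v)) ⟨v, fun h => h.1 rfl⟩ ?_ ?_ ?_
  · intro x hx
    rcases hx with rfl | hx
    · exact fun h => h.1 rfl
    · exact fun h => w4_disj hx h
  · intro B hB hPB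
    have hBY : ∀ b ∈ B, b ∈ Y G v := fun b hb => not_not.1 (hB b hb)
    -- the vertices of `B` with a neighbour in `XS`
    let Q : Set V := {y | y ∈ B ∧ ∃ x ∈ XS G v, G.Adj x y}
    have hQX : ∀ y ∈ Q, ∀ z ∈ XS G v, G.Adj z y := by
      rintro y ⟨hyB, x, hx, hxy⟩ z hz
      have h1 : y ∈ NY G v x := ⟨hBY y hyB, hxy⟩
      rw [hs x hx z hz] at h1
      exact h1.2
    have hQQ : ∀ y ∈ Q, ∀ y' ∈ Q, y ≠ y' → G.Adj y y' := by
      rintro y hy y' hy' hne
      obtain ⟨hyB, x, hx, hxy⟩ := hy
      have h1 : y ∈ NY G v x := ⟨hBY y hyB, hxy⟩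
      have h2 : y' ∈ NY G v x := ⟨hBY y' hy'.1, hQX y' hy' x hx⟩
      exact XS.ny_clique hcf hx.1 h1 h2 hne
    have hXQ : ∀ a b, (a ∈ XS G v ∨ a ∈ Q) → (b ∈ XS G v ∨ b ∈ Q) → a ≠ b → G.Adj a b := by
      rintro a b (ha | ha) (hb | hb) hne
      · exact hX ha hb hne
      · exact hQX b hb a ha
      · exact (hQX a ha b hb).symm
      · exact hQQ a ha b hb hne
    have hfin : ∀ F : Finset V, (F : Set V) ⊆ Q → Perf G (N2 G v ∪ (F : Set V)) := by
      intro F
      induction F using Finset.induction_on with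
      | empty => intro _; simpa using hP
      | insert u F _ ih =>
        intro hF
        rw [Finset.coe_insert] at hF
        have hu : u ∈ Q := hF (Set.mem_insert _ _)
        have hF' : (F : Set V) ⊆ Q := (Set.subset_insert _ _).trans hF
        have h1 : N2 G v ∪ ((insert u F : Finset V) : Set V) = insert u (N2 G v ∪ (F : Set V)) := by
          rw [Finset.coe_insert, Set.union_insert]
        rw [h1]
        apply perf_insert (ih hF')
        have hmem : ∀ a ∈ N2 G v ∪ (F : Set V), G.Adj u a → (a ∈ XS G v ∨ a ∈ Q) := by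
          rintro a (ha | ha) hua
          · left; exact ⟨ha, u, hBY u hu.1, hua.symm⟩
          · right; exact hF' ha
        intro x hx y hy hux huy hxy
        exact hXQ x y (hmem x hx hux) (hmem y hy huy) hxy
    have hN2Q : Perf G (N2 G v ∪ Q) := by
      have := hfin Q.toFinset (by simp)
      simpa using this
    have hglue : Perf G ((N2 G v ∪ Q) ∪ B) := by
      apply perf_glue hN2Q hPB
      · rintro a ⟨ha, haB⟩ b ⟨hb, hbB⟩ hne
        have ha' : a ∈ Q := by
          rcases ha with ha | ha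
          · exact (w4_disj ha (hBY a haB)).elim
          · exact ha
        have hb' : b ∈ Q := by
          rcases hb with hb | hb
          · exact (w4_disj hb (hBY b hbB)).elim
          · exact hb
        exact hQQ a ha' b hb' hne
      · intro a ha haB b hb hbn hab
        have haN : a ∈ N2 G v := by
          rcases ha with ha | ha
          · exact ha
          · exact (haB ha.1).elim
        apply hbn
        right
        exact ⟨hb, a, ⟨haN, b, hBY b hb, hab⟩, hab⟩
    have hins : Perf G (insert v ((N2 G v ∪ Q) ∪ B)) := by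
      apply perf_insert hglue
      intro x hx y _ hvx
      exfalso
      rcases hx with (hx | hx) | hx
      · exact hx.2.1 hvx
      · exact (hBY x hx.1).2.1 hvx
      · exact (hBY x hx).2.1 hvx
    apply hins.mono
    rintro a ((rfl | ha) | ha)
    · left; rfl
    · right; left; left; exact ha
    · right; right; exact ha
  · intro K hK hKH
    obtain ⟨h, hhK, hhY⟩ := hKH
    by_contra hne
    rw [Set.not_nonempty_iff_eq_empty] at hne
    have hno : ∀ k ∈ K, k ≠ v ∧ k ∉ N2 G v := by
      intro k hk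
      constructor
      · rintro rfl
        have : k ∈ K ∩ insert k (N2 G k) := ⟨hk, Set.mem_insert _ _⟩
        rw [hne] at this
        exact this
      · intro hk2
        have : k ∈ K ∩ insert v (N2 G v) := ⟨hk, Set.mem_insert_of_mem _ hk2⟩
        rw [hne] at this
        exact this
    have hvh : G.Adj v h := by
      by_contra hvh
      rcases w4_cover (hno h hhK).1 hvh with h1 | h1
      · exact (hno h hhK).2 h1
      · exact hhY h1
    have hall : ∀ k ∈ K, G.Adj v k := by
      intro k hk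
      by_contra hvk
      rcases w4_cover (hno k hk).1 hvk with h1 | h1
      · exact (hno k hk).2 h1
      · have hne' : h ≠ k := by
          rintro rfl
          exact hhY h1
        exact h1.2.2 h hvh (hK.1 hhK hk hne')
    have hvK : v ∈ K := hK.2 v (fun y hy _ => hall y hy)
    exact (hno v hvK).1 rfl

theorem complete_Y [Fintype V] {G : SimpleGraph V} (hcf : ClawFree G) (hc : Core G) {v : V}
    (hs : ∀ x ∈ XS G v, ∀ z ∈ XS G v, NY G v x = NY G v z) (hX : ¬ G.IsClique (XS G v)) :
    G.IsClique (Y G v) ∧ ∀ y ∈ Y G v, ∀ x ∈ XS G v, G.Adj x y := by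
  have hex : ∃ x ∈ XS G v, ∃ x' ∈ XS G v, x ≠ x' ∧ ¬ G.Adj x x' := by
    by_contra hcon
    push Not at hcon
    exact hX (fun x hx x' hx' hne => hcon x hx x' hx' hne)
  obtain ⟨x, hx, x', hx', hne, hnadj⟩ := hex
  have hYQ : ∀ y ∈ Y G v, y ∈ NY G v x := by
    by_contra hcon
    push Not at hcon
    obtain ⟨y₀, hy₀, hy₀'⟩ := hcon
    obtain ⟨y, hy, q, hq, hyq⟩ := hc.conn {y | y ∈ Y G v ∧ y ∉ NY G v x} ⟨y₀, hy₀, hy₀'⟩ (by
      intro h
      have : v ∈ {y | y ∈ Y G v ∧ y ∉ NY G v x} := by rw [h]; exact Set.mem_univ _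
      exact this.1.1 rfl)
    obtain ⟨hyY, hyx⟩ := hy
    have hqv : q ≠ v := by
      rintro rfl
      exact hyY.2.1 hyq.symm
    have hvq : ¬ G.Adj v q := fun h => hyY.2.2 q h hyq.symm
    rcases w4_cover hqv hvq with h1 | h1
    · have hqX : q ∈ XS G v := ⟨h1, y, hyY, hyq.symm⟩
      have h2 : y ∈ NY G v q := ⟨hyY, hyq.symm⟩
      rw [hs q hqX x hx] at h2
      exact hyx h2
    · have hqx : q ∈ NY G v x := by
        by_contra h2
        exact hq ⟨h1, h2⟩
      have hqx' : q ∈ NY G v x' := by rw [← hs x hx x' hx']; exact hqx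
      have hyx' : y ∉ NY G v x' := by rw [← hs x hx x' hx']; exact hyx
      refine hcf q x x' y hqx.2.symm hqx'.2.symm hyq.symm hnadj (fun h => hyx ⟨hyY, h⟩)
        (fun h => hyx' ⟨hyY, h⟩) hne ?_ ?_
      · rintro rfl; exact w4_disj hx.1 hyY
      · rintro rfl; exact w4_disj hx'.1 hyY
  refine ⟨fun a ha b hb hab => XS.ny_clique hcf hx.1 (hYQ a ha) (hYQ b hb) hab, ?_⟩
  intro y hy z hz
  have h1 := hYQ y hy
  rw [hs x hx z hz] at h1
  exact h1.2

end Pool.Agent.H602PD
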