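import Pool.Agent.H602PD.WheelSame
import Pool.Agent.H602PD.WheelXS

/-!
# 5-wheels: all classes are nonempty
-/

set_option autoImplicit false

namespace Pool.Agent.H602PD

variable {V : Type}


theorem Wheel.E_nonempty [Fintype V] {G : SimpleGraph V} (hcf : ClawFree G) (hc : Core G) {v : V}
    {f : ZMod 5 → V} (hw : Wheel G v f) (j : ZMod 5) : (E G v f j).Nonempty := by
  by_contra hempty
  have hE : ∀ x, x ∉ E G v f j := fun x hx => hempty ⟨x, hx⟩
  have hgg' : ¬ G.Adj (f (j + 2)) (f (j + 4)) := by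
    have := hw.non (j + 2)
    have he : j + 2 + 2 = j + 4 := by ring
    rwa [he] at this
  have hM : ∀ x ∈ N2 G v, x ∈ M G v := fun x hx => ⟨hx.1, hx.2.1⟩
  have hcov : ∀ x ∈ N2 G v, G.Adj x (f (j + 4)) ∨ G.Adj x (f (j + 2)) := by
    intro x hx
    have key : ∀ d : ZMod 5, d = 0 ∨ d = 1 ∨ d = 2 ∨ d = 3 ∨ d = 4 := by decide
    have e11 : j + 1 + 1 = j + 2 := by ring
    have e31 : j + 3 + 1 = j + 4 := by ring
    rcases hw.type hcf hx with ⟨i, hi⟩ | ⟨i, h0, h1, h2⟩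
    · obtain ⟨d, rfl⟩ : ∃ d, i = j + d := ⟨i - j, by ring⟩
      obtain ⟨-, a0, a1, -⟩ := id hi
      rcases key d with rfl | rfl | rfl | rfl | rfl
      · rw [add_zero] at hi; exact absurd hi (hE x)
      · rw [e11] at a1; exact Or.inr a1
      · exact Or.inr a0
      · rw [e31] at a1; exact Or.inl a1
      · exact Or.inl a0
    · obtain ⟨d, rfl⟩ : ∃ d, i = j + d := ⟨i - j, by ring⟩
      rcases key d with rfl | rfl | rfl | rfl | rfl
      · rw [add_zero] at h2; exact Or.inr h2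
      · rw [e11] at h1; exact Or.inr h1
      · exact Or.inr h0
      · rw [e31] at h1; exact Or.inl h1
      · exact Or.inl h0
  have hclg : ∀ i, G.IsClique {x | x ∈ N2 G v ∧ G.Adj x (f i)} := by
    intro i x hx y hy hxy
    exact adj_of_common hcf (hw.hub i) (hM x hx.1) (hM y hy.1) hx.2.symm hy.2.symm hxy
  have hN2 : Perf G (N2 G v) := by
    refine (perf_two_cliques (hclg (j + 4)) (hclg (j + 2))).mono fun x hx => ?_
    rcases hcov x hx with h | h
    · exact Or.inl ⟨hx, h⟩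
    · exact Or.inr ⟨hx, h⟩
  have hs := hw.same_NY hcf hc
  have hX : ¬ G.IsClique (XS G v) := fun hX => not_perf_N2 hcf hc hs hX hN2
  obtain ⟨hYc, hYX⟩ := complete_Y hcf hc hs hX
  apply hc.not_perf_M (f (j + 4))
  set g := f (j + 4) with hg
  set R1 : Set V := {x | G.Adj v x ∧ x ∈ M G g} with hR1
  set R2 : Set V := {x | x ∈ N2 G v ∧ x ∈ M G g} with hR2
  have hR1c : G.IsClique R1 := by
    intro x hx y hy hxy
    by_contra hna
    rcases adj_or_of_nonadj hcf hx.1 hy.1 (hw.hub (j + 4)) hna hxy (Ne.symm hx.2.1)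
      (Ne.symm hy.2.1) with h | h
    · exact hx.2.2 h
    · exact hy.2.2 h
  have hR2c : G.IsClique R2 := by
    intro x hx y hy hxy
    have hx' : G.Adj x (f (j + 2)) := (hcov x hx.1).resolve_left fun h => hx.2.2 h.symm
    have hy' : G.Adj y (f (j + 2)) := (hcov y hy.1).resolve_left fun h => hy.2.2 h.symm
    exact hclg (j + 2) ⟨hx.1, hx'⟩ ⟨hy.1, hy'⟩ hxy
  have hA1 : Perf G (R1 ∪ R2) := perf_two_cliques hR1c hR2c
  have hA2c : G.IsClique ((R2 ∩ XS G v) ∪ Y G v) := by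
    rintro x (hx | hx) y (hy | hy) hxy
    · exact hR2c hx.1 hy.1 hxy
    · exact hYX y hy x hx.2
    · exact (hYX x hx y hy.2).symm
    · exact hYc hx hy hxy
  have hA2 : Perf G ((R2 ∩ XS G v) ∪ Y G v) := perf_clique hA2c
  have hYn : ∀ x ∈ Y G v, x ∉ R1 ∪ R2 := by
    rintro x hx (h | h)
    · exact hx.2.1 h.1
    · obtain ⟨p, hp, hpx⟩ := h.1.2.2
      exact hx.2.2 p hp hpx
  have hglue : Perf G ((R1 ∪ R2) ∪ ((R2 ∩ XS G v) ∪ Y G v)) := by
    apply perf_glue hA1 hA2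
    · refine hA2c.subset Set.inter_subset_right
    · rintro a ha ha' b hb hb' hab
      have hbY : b ∈ Y G v := by
        rcases hb with hb | hb
        · exact absurd (Or.inr hb.1) hb'
        · exact hb
      rcases ha with ha | ha
      · exact hbY.2.2 a ha.1 hab
      · exact ha' (Or.inl ⟨ha, ha.1, b, hbY, hab⟩)
  refine hglue.mono fun x hx => ?_
  by_cases hvx : G.Adj v x
  · exact Or.inl (Or.inl ⟨hvx, hx⟩)
  · have hxv : x ≠ v := by
      rintro rfl
      exact hx.2 (hw.hub (j + 4)).symm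
    by_cases hp : ∃ p, G.Adj v p ∧ G.Adj p x
    · exact Or.inl (Or.inr ⟨⟨hxv, hvx, hp⟩, hx⟩)
    · exact Or.inr (Or.inr ⟨hxv, hvx, fun p h1 h2 => hp ⟨p, h1, h2⟩⟩)

end Pool.Agent.H602PD
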